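import Pool.Agent.KS6_11.G.Small
import Pool.Agent.KS6_11.Mon

set_option autoImplicit false
set_option linter.unusedVariables false
set_option linter.unusedSectionVars false
set_option linter.unusedSimpArgs false

/-!
# The Betti side from the loops
-/

open Matrix Module

noncomputable section

namespace Pool.Agent.KS6_11.G

open Pool.Agent.W516.DR Pool.Agent.W245.EB Pool.Agent.Y102
open Pool.Agent.TH127.PT Pool.Agent.TH119.DR Pool.Agent.Y123.ST
open Pool.Agent.X306.EM (QB_iff QQ mem_QQ)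
open Pool.Agent.X306.RL (LL_br derD LL_defF GDef)
open Pool.Agent.X306.MT
open Pool.Agent.X306.MZ (InK)
open Pool.Agent.X306.CV hiding Elt EE EE.add EE.smul EE.op EE.poly rho_lead raise top_elt mm mm_br mm_full all_mem main
open Pool.Agent.X306.AV (PA PA_inv inv_PA dQ Fld Pt Lt)
open Pool.Agent.KS6_11 (InK_mul)

section defK

variable {B S : Type} [Fintype B] [DecidableEq B] {d : B → ℕ} {N : S → Matrix B B ℂ} {C : Matrix B B ℂ}
  {K : Subfield ℂ}

/-- **The Betti form of the Lie algebra is defined over `K`** if the Lie algebra contains enough elements whose Betti form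
is defined over `K`. -/
theorem defK_of' (hC : Bi d C) (hN : Deg1 d N) (h : ∀ s, ∃ x ∈ Submodule.span ℂ {t | t ∈ nn N ∧ InK K (C * t * C⁻¹)},
    x - N s ∈ Ge d 2) : DefK K C N := by
  let 𝔪 : Submodule ℂ (Matrix B B ℂ) := Submodule.span ℂ {x | x ∈ nn N ∧ InK K (C * x * C⁻¹)}
  have hle : 𝔪 ≤ nn N := Submodule.span_le.2 fun x hx => hx.1
  have hbr : ∀ x ∈ 𝔪, ∀ y ∈ 𝔪, x * y - y * x ∈ 𝔪 := by
    intro x hx y hy
    induction hx using Submodule.span_induction with
    | mem x hx =>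
      induction hy using Submodule.span_induction with
      | mem y hy =>
        refine Submodule.subset_span ⟨nn_br hx.1 hy.1, ?_⟩
        have h1 : ∀ x y : Matrix B B ℂ, C * (x * y) * C⁻¹ = (C * x * C⁻¹) * (C * y * C⁻¹) := by
          intro x y
          have h2 : (C * x * C⁻¹) * (C * y * C⁻¹) = C * x * (C⁻¹ * C) * y * C⁻¹ := by
            simp only [Matrix.mul_assoc]
          rw [h2, hC.inv_mul, Matrix.mul_one]
          simp only [Matrix.mul_assoc]
        rw [Matrix.mul_sub, Matrix.sub_mul, h1, h1]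
        exact (InK_mul hx.2 hy.2).sub (InK_mul hy.2 hx.2)
      | zero =>
        rw [Matrix.mul_zero, Matrix.zero_mul, sub_zero]
        exact 𝔪.zero_mem
      | add y y' _ _ h2 h3 =>
        refine (congrArg (· ∈ 𝔪) ?_).mp (𝔪.add_mem h2 h3)
        rw [Matrix.mul_add, Matrix.add_mul]
        abel
      | smul a y _ h2 =>
        refine (congrArg (· ∈ 𝔪) ?_).mp (𝔪.smul_mem a h2)
        rw [Matrix.mul_smul, Matrix.smul_mul, smul_sub]
    | zero =>
      rw [Matrix.mul_zero, Matrix.zero_mul, sub_zero]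
      exact 𝔪.zero_mem
    | add y y' _ _ h2 h3 =>
      refine (congrArg (· ∈ 𝔪) ?_).mp (𝔪.add_mem h2 h3)
      rw [Matrix.mul_add, Matrix.add_mul]
      abel
    | smul a y _ h2 =>
      refine (congrArg (· ∈ 𝔪) ?_).mp (𝔪.smul_mem a h2)
      rw [Matrix.mul_smul, Matrix.smul_mul, smul_sub]
  have hfull : nn N ≤ 𝔪 := full hN hle hbr h
  intro M hM
  have h1 : C⁻¹ * M * C ∈ 𝔪 := hfull hM
  have key : ∀ x ∈ 𝔪, C * x * C⁻¹ ∈ Submodule.span ℂ {M' : Matrix B B ℂ | M' ∈ nB C N ∧ InK K M'} := by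
    intro x hx
    induction hx using Submodule.span_induction with
    | mem x hx => exact Submodule.subset_span ⟨conj_nB hC hx.1, hx.2⟩
    | zero =>
      rw [Matrix.mul_zero, Matrix.zero_mul]
      exact Submodule.zero_mem _
    | add y y' _ _ h2 h3 =>
      rw [Matrix.mul_add, Matrix.add_mul]
      exact Submodule.add_mem _ h2 h3
    | smul a y _ h2 =>
      rw [Matrix.mul_smul, Matrix.smul_mul]
      exact Submodule.smul_mem _ a h2
  have h2 := key _ h1
  rwa [nB_conj hC] at h2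

end defK

variable {B I : Type} [Fintype B] [DecidableEq B] [Fintype I] [DecidableEq I]
  {d : B → ℕ} {o : B} {N : I → Matrix B B ℂ} {C : Matrix B B ℂ} {P P' : Matrix I I ℂ} {t : I → Matrix B B ℂ}

theorem pr0_inv (hC : Bi d C) : pr d 0 C * pr d 0 C⁻¹ = 1 := by
  have h1 : pr d 0 C * pr d 0 C⁻¹ - 1 ∈ Gr d 0 := by
    refine (Gr d 0).sub_mem ?_ ?_
    · have := Gr_mul (pr_Gr (d := d) 0 C) (pr_Gr (d := d) 0 C⁻¹)
      rwa [add_zero] at this
    · intro b b' h
      rw [Matrix.one_apply_ne]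
      rintro rfl
      exact h rfl
  have h2 : pr d 0 C * pr d 0 C⁻¹ - 1 ∈ Ge d 1 := by
    have e1 := Ge_mul (sub_pr0 hC.m) hC.m'
    have e2 := Ge_mul (Gr_Ge (pr_Gr (d := d) 0 C)) (sub_pr0 hC.m')
    have e3 := (Ge d 1).neg_mem ((Ge d 1).add_mem e1 e2)
    refine (congrArg (· ∈ Ge d 1) ?_).mp e3
    rw [← hC.mul_inv, Matrix.sub_mul, Matrix.mul_sub]
    abel
  exact sub_eq_zero.1 (Gr_eq_zero h1 h2)

theorem inv_pr0 (hC : Bi d C) : pr d 0 C⁻¹ * pr d 0 C = 1 := by
  have h1 : pr d 0 C⁻¹ * pr d 0 C - 1 ∈ Gr d 0 := by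
    refine (Gr d 0).sub_mem ?_ ?_
    · have := Gr_mul (pr_Gr (d := d) 0 C⁻¹) (pr_Gr (d := d) 0 C)
      rwa [add_zero] at this
    · intro b b' h
      rw [Matrix.one_apply_ne]
      rintro rfl
      exact h rfl
  have h2 : pr d 0 C⁻¹ * pr d 0 C - 1 ∈ Ge d 1 := by
    have e1 := Ge_mul (sub_pr0 hC.m') hC.m
    have e2 := Ge_mul (Gr_Ge (pr_Gr (d := d) 0 C⁻¹)) (sub_pr0 hC.m)
    have e3 := (Ge d 1).neg_mem ((Ge d 1).add_mem e1 e2)
    refine (congrArg (· ∈ Ge d 1) ?_).mp e3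
    rw [← hC.inv_mul, Matrix.sub_mul, Matrix.mul_sub]
    abel
  exact sub_eq_zero.1 (Gr_eq_zero h1 h2)

/-- the hypotheses for the loops -/
structure Lp (d : B → ℕ) (N : I → Matrix B B ℂ) (C : Matrix B B ℂ) (P : Matrix I I ℂ) (t : I → Matrix B B ℂ) : Prop where
  hC : Bi d C
  hN : Deg1 d N
  mem : ∀ k, t k ∈ nn N
  one : ∀ k, t k - ∑ i, P k i • N i ∈ Ge d 2
  rat : ∀ k, InK QQ (C * t k * C⁻¹)

/-- the Betti form of the loops -/
def NBt (d : B → ℕ) (C : Matrix B B ℂ) (t : I → Matrix B B ℂ) (k : I) : Matrix B B ℂ := pr d 1 (C * t k * C⁻¹)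

theorem Lp.sub (H : Lp d N C P t) (k : I) : C * t k * C⁻¹ - NBt d C t k ∈ Ge d 2 :=
  sub_pr0 (H.hC.conj_mem (nn_Ge H.hN (H.mem k)))

/-- the images of the `N_i` -/
theorem Lp.conjN (H : Lp d N C P t) (PP : P' * P = 1) (i : I) :
    C * N i * C⁻¹ - nbv (NBt d C t) (P' i) ∈ Ge d 2 := by
  have h1 : ∑ k, P' i k • (t k - ∑ j, P k j • N j) ∈ Ge d 2 :=
    (Ge d 2).sum_mem fun k _ => (Ge d 2).smul_mem _ (H.one k)
  have h2 : ∑ k, P' i k • (t k - ∑ j, P k j • N j) = (∑ k, P' i k • t k) - N i := by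
    simp only [smul_sub, Finset.sum_sub_distrib]
    congr 1
    simp only [Finset.smul_sum, smul_smul]
    rw [Finset.sum_comm]
    have h3 : ∀ j, ∑ k, (P' i k * P k j) • N j = (P' * P) i j • N j := by
      intro j
      rw [← Finset.sum_smul]
      rfl
    simp only [h3, PP]
    rw [Finset.sum_eq_single i]
    · rw [Matrix.one_apply_eq, one_smul]
    · intro j _ hj
      rw [Matrix.one_apply_ne (Ne.symm hj), zero_smul]
    · intro h
      exact absurd (Finset.mem_univ _) h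
  rw [h2] at h1
  have h3 := H.hC.conj_mem h1
  have h4 : ∑ k, P' i k • (C * t k * C⁻¹ - NBt d C t k) ∈ Ge d 2 :=
    (Ge d 2).sum_mem fun k _ => (Ge d 2).smul_mem _ (H.sub k)
  have h5 := (Ge d 2).sub_mem h4 h3
  refine (congrArg (· ∈ Ge d 2) ?_).mp h5
  unfold nbv
  rw [Matrix.mul_sub, Matrix.sub_mul, Finset.mul_sum, Finset.sum_mul]
  simp only [smul_sub, Finset.sum_sub_distrib, Matrix.mul_smul, Matrix.smul_mul]
  abel

theorem Lp.lead (H : Lp d N C P t) (j : I) : NBt d C t j * C - ∑ i, P j i • (C * N i) ∈ Ge d 2 := by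
  have h1 := Ge_mul (H.sub j) H.hC.m
  rw [add_zero] at h1
  have h2 := Ge_mul H.hC.m (H.one j)
  rw [zero_add] at h2
  have h3 := (Ge d 2).sub_mem h2 h1
  refine (congrArg (· ∈ Ge d 2) ?_).mp h3
  rw [Matrix.sub_mul, Matrix.mul_sub, Matrix.mul_assoc (C * t j), H.hC.inv_mul, Matrix.mul_one, Finset.mul_sum]
  simp only [Matrix.mul_smul]
  abel

theorem Lp.conj0 (H : Lp d N C P t) (PP : P' * P = 1) (i : I) :
    pr d 0 C * N i * pr d 0 C⁻¹ = nbv (NBt d C t) (P' i) := by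
  have hNB : Deg1 d (NBt d C t) := fun k b b' h => pr_Gr 1 _ b b' h
  have h1 : pr d 0 C * N i * pr d 0 C⁻¹ - nbv (NBt d C t) (P' i) ∈ Gr d 1 := by
    refine (Gr d 1).sub_mem ?_ (nbv_deg hNB _)
    have e1 := Gr_mul (pr_Gr (d := d) 0 C) (k := 1) (M' := N i) (H.hN i)
    have e2 := Gr_mul e1 (pr_Gr (d := d) 0 C⁻¹)
    rwa [zero_add, add_zero] at e2
  have hN1 : N i ∈ Ge d 1 := Gr_Ge (H.hN i)
  have h2 : C * N i * C⁻¹ - pr d 0 C * N i * pr d 0 C⁻¹ ∈ Ge d 2 := by
    have e1 := Ge_mul (Ge_mul (sub_pr0 H.hC.m) hN1) H.hC.m'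
    have e2 := Ge_mul (Ge_mul (Gr_Ge (pr_Gr (d := d) 0 C)) hN1) (sub_pr0 H.hC.m')
    have e3 := (Ge d 2).add_mem e1 e2
    refine (congrArg (· ∈ Ge d 2) ?_).mp e3
    rw [Matrix.sub_mul, Matrix.sub_mul, Matrix.mul_sub]
    abel
  have h3 := (Ge d 2).sub_mem (H.conjN PP i) h2
  refine sub_eq_zero.1 (Gr_eq_zero h1 ?_)
  refine (congrArg (· ∈ Ge d (1 + 1)) ?_).mp h3
  abel

/-- the Betti module is generated by the unit -/
theorem Lp.gen (H : Lp d N C P t) (PP : P' * P = 1) (uni : ∀ b, d b = 0 → b = o) (dgo : d o = 0)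
    (gen : ∀ b, b ≠ o → (Pi.single b 1 : B → ℂ) ∈ Submodule.span ℂ {v' | ∃ (v : B → ℂ) (i : I), v' = v ᵥ* N i})
    (b : B) (hb : b ≠ o) :
    (Pi.single b 1 : B → ℂ) ∈ Submodule.span ℂ {v' | ∃ (v : B → ℂ) (i : I), v' = v ᵥ* NBt d C t i} := by
  set U : Submodule ℂ (B → ℂ) := Submodule.span ℂ {v' | ∃ (v : B → ℂ) (i : I), v' = v ᵥ* NBt d C t i} with hU
  have hnbv : ∀ (v w : _), v ᵥ* nbv (NBt d C t) w ∈ U := by
    intro v w
    unfold nbv
    have h1 : v ᵥ* ∑ k, w k • NBt d C t k = ∑ k, w k • (v ᵥ* NBt d C t k) := by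
      funext b'
      change ∑ a, v a * (∑ k, w k • NBt d C t k) a b' = (∑ k, w k • (v ᵥ* NBt d C t k)) b'
      rw [Finset.sum_apply]
      simp only [Matrix.sum_apply, Matrix.smul_apply, smul_eq_mul, Finset.mul_sum]
      rw [Finset.sum_comm]
      refine Finset.sum_congr rfl fun k _ => ?_
      change _ = w k * ∑ a, v a * NBt d C t k a b'
      rw [Finset.mul_sum]
      exact Finset.sum_congr rfl fun a _ => by ring
    rw [h1]
    exact U.sum_mem fun k _ => U.smul_mem _ (Submodule.subset_span ⟨v, k, rfl⟩)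
  have h1 : ∀ w ∈ Submodule.span ℂ {v' | ∃ (v : B → ℂ) (i : I), v' = v ᵥ* N i}, w ᵥ* pr d 0 C⁻¹ ∈ U := by
    intro w hw
    induction hw using Submodule.span_induction with
    | mem w hw =>
      obtain ⟨v, i, rfl⟩ := hw
      have h2 := hnbv (v ᵥ* pr d 0 C⁻¹) (P' i)
      rw [← H.conj0 PP i, Matrix.vecMul_vecMul] at h2
      rw [Matrix.vecMul_vecMul]
      refine (congrArg (fun X => v ᵥ* X ∈ U) ?_).mp h2
      rw [← Matrix.mul_assoc, ← Matrix.mul_assoc, inv_pr0 H.hC, Matrix.one_mul]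
    | zero =>
      rw [Matrix.zero_vecMul]
      exact U.zero_mem
    | add v v' _ _ h3 h4 =>
      rw [Matrix.add_vecMul]
      exact U.add_mem h3 h4
    | smul a v _ h3 =>
      rw [Matrix.smul_vecMul]
      exact U.smul_mem _ h3
  have h2 : (Pi.single b 1 : B → ℂ) ᵥ* pr d 0 C ∈
      Submodule.span ℂ {v' | ∃ (v : B → ℂ) (i : I), v' = v ᵥ* N i} := by
    rw [Matrix.single_one_vecMul]
    have h3 : pr d 0 C b = ∑ c, pr d 0 C b c • (Pi.single c 1 : B → ℂ) := by
      funext e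
      rw [Finset.sum_apply, Finset.sum_eq_single e]
      · rw [Pi.smul_apply, Pi.single_eq_same, smul_eq_mul, mul_one]
      · intro c _ hc
        rw [Pi.smul_apply, Pi.single_eq_of_ne (Ne.symm hc), smul_zero]
      · intro h
        exact absurd (Finset.mem_univ _) h
    change pr d 0 C b ∈ _
    rw [h3]
    refine Submodule.sum_mem _ fun c _ => ?_
    by_cases hc : d c = d b
    · refine Submodule.smul_mem _ _ (gen c ?_)
      rintro rfl
      exact hb (uni b (by omega))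
    · have h4 : pr d 0 C b c = 0 := pr_Gr 0 C b c (by omega)
      rw [h4, zero_smul]
      exact Submodule.zero_mem _
  have h3 := h1 _ h2
  rwa [Matrix.vecMul_vecMul, pr0_inv H.hC, Matrix.vecMul_one] at h3

/-- the shape of the period matrix -/
theorem Lp.fn (H : Lp d N C P t) (PP : P' * P = 1) (PP' : P * P' = 1) (hu : IsUnit C) (low : C ∈ Ge d 0)
    (dgo : d o = 0) (uni : ∀ b, d b = 0 → b = o) (coo : C o o = 1) (alg : ∀ i, AlgM (N i))
    (gen : ∀ b, b ≠ o → (Pi.single b 1 : B → ℂ) ∈ Submodule.span ℂ {v' | ∃ (v : B → ℂ) (i : I), v' = v ᵥ* N i}) :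
    Fn d o N (NBt d C t) C P P' where
  u := hu
  low := low
  dgo := dgo
  uni := uni
  coo := coo
  hN := H.hN
  hNB := fun k b b' h => pr_Gr 1 _ b b' h
  alg := alg
  rat := fun k b b' => by
    unfold NBt
    rw [pr_apply]
    split_ifs
    · exact H.rat k b b'
    · exact QQ.zero_mem
  lead := H.lead
  gen := H.gen PP uni dgo gen
  bet := by
    refine defK_of' H.hC H.hN fun i => ⟨∑ k, P' i k • t k, ?_, ?_⟩
    · exact Submodule.sum_mem _ fun k _ => Submodule.smul_mem _ _ (Submodule.subset_span ⟨H.mem k, H.rat k⟩)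
    · have h1 : ∑ k, P' i k • (t k - ∑ j, P k j • N j) ∈ Ge d 2 :=
        (Ge d 2).sum_mem fun k _ => (Ge d 2).smul_mem _ (H.one k)
      refine (congrArg (· ∈ Ge d 2) ?_).mp h1
      simp only [smul_sub, Finset.sum_sub_distrib]
      congr 1
      simp only [Finset.smul_sum, smul_smul]
      rw [Finset.sum_comm]
      have h3 : ∀ j, ∑ k, (P' i k * P k j) • N j = (P' * P) i j • N j := by
        intro j
        rw [← Finset.sum_smul]
        rfl
      simp only [h3, PP]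
      rw [Finset.sum_eq_single i]
      · rw [Matrix.one_apply_eq, one_smul]
      · intro j _ hj
        rw [Matrix.one_apply_ne (Ne.symm hj), zero_smul]
      · intro h
        exact absurd (Finset.mem_univ _) h
  PP := PP
  PP' := PP'

end Pool.Agent.KS6_11.G
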