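import Pool.Graph.R_pool_sql_team_seeded_64922ed1.X306.CV.Raise

set_option autoImplicit false
set_option linter.unusedVariables false
set_option linter.unusedSectionVars false
set_option linter.unusedSimpArgs false

/-!
# The elements of the Lie algebra, with a component for an arbitrary object
-/

open Matrix Module

noncomputable section

namespace Pool.Agent.KS6_11.G

open Pool.Agent.W516.DR Pool.Agent.W245.EB Pool.Agent.Y102
open Pool.Agent.TH127.PT Pool.Agent.TH119.DR Pool.Agent.Y123.ST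
open Pool.Agent.X306.EM (QB_iff QQ mem_QQ)
open Pool.Agent.X306.RL (LL_br derD)
open Pool.Agent.X306.MT
open Pool.Agent.X306.MZ (InK)
open Pool.Agent.X306.CV

variable {M B R S I : Type} [Fintype M] [DecidableEq M] [Fintype B] [DecidableEq B] [Fintype R] [DecidableEq R]
  [Fintype I] [DecidableEq I]
  {d : B → ℕ} {o : B} {N : S → Matrix B B ℂ} {C : Matrix B B ℂ} {NB : I → Matrix B B ℂ}
  {T : Set (Matrix (M ⊕ (B ⊕ (B × R))) (M ⊕ (B ⊕ (B × R))) ℂ)}

/-- the elements -/
def qz (z : Matrix M M ℂ) (Y : Matrix B B ℂ) (V : R → Matrix B B ℂ) :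
    Matrix (M ⊕ (B ⊕ (B × R))) (M ⊕ (B ⊕ (B × R))) ℂ := fromBlocks z 0 0 (qt Y V)

theorem qz_zero : qz (0 : Matrix M M ℂ) (0 : Matrix B B ℂ) (0 : R → Matrix B B ℂ) = 0 := by
  unfold qz
  rw [qt_zero, fromBlocks_zero]

theorem qz_add (z z' : Matrix M M ℂ) (Y Y' : Matrix B B ℂ) (V V' : R → Matrix B B ℂ) :
    qz (z + z') (Y + Y') (V + V') = qz z Y V + qz z' Y' V' := by
  unfold qz
  rw [fromBlocks_add, add_zero, add_zero, qt_add]

theorem qz_smul (a : ℂ) (z : Matrix M M ℂ) (Y : Matrix B B ℂ) (V : R → Matrix B B ℂ) :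
    qz (a • z) (a • Y) (a • V) = a • qz z Y V := by
  unfold qz
  rw [fromBlocks_smul, smul_zero, smul_zero, qt_smul]

theorem qz_br (z z' : Matrix M M ℂ) (Y Y' : Matrix B B ℂ) (V V' : R → Matrix B B ℂ) :
    qz z Y V * qz z' Y' V' - qz z' Y' V' * qz z Y V =
    qz (z * z' - z' * z) (Y * Y' - Y' * Y)
      (fun r => (Y * V' r - V' r * Y) - (Y' * V r - V r * Y') + (V r * V' r - V' r * V r)) := by
  unfold qz
  rw [← qt_br, fromBlocks_multiply, fromBlocks_multiply, sub_eq_add_neg, fromBlocks_neg, fromBlocks_add]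
  simp only [Matrix.mul_zero, Matrix.zero_mul, add_zero, zero_add, neg_zero]
  rw [← sub_eq_add_neg, ← sub_eq_add_neg]

theorem qz_map {K : Subfield ℂ} (f : ℂ →ₗ[K] ℂ) (z : Matrix M M ℂ) (Y : Matrix B B ℂ) (V : R → Matrix B B ℂ) :
    (qz z Y V).map f = qz (z.map f) (Y.map f) (fun r => (V r).map f) := by
  unfold qz qt
  rw [fromBlocks_map, fromBlocks_map, blockDiagonal_map _ _ (map_zero f)]
  have h0 : ∀ {α β : Type}, (0 : Matrix α β ℂ).map f = 0 := by
    intro α β
    ext a b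
    exact map_zero f
  simp only [h0]
  congr 3
  funext r
  ext b b'
  exact map_add f _ _

/-- the conditions for the components of degree at most one -/
structure Ar (d : B → ℕ) (o : B) (C : Matrix B B ℂ)
    (N : S → Matrix B B ℂ) (NB : I → Matrix B B ℂ) (X : Matrix I I ℂ) (y : R → I → ℂ)
    (Y : Matrix B B ℂ) (V : R → Matrix B B ℂ) : Prop where
  nor : Y ∈ Nor C N
  bet : ∀ r, V r ∈ nB C N
  low : Y ∈ Ge d 0
  ori : ∀ b, d b = 0 → Y o b = 0
  com : ∀ j, Y * NB j - NB j * Y + nbv NB (X j) ∈ Ge d 2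
  two : ∀ r, V r - nbv NB (y r) ∈ Ge d 2

theorem Ar.zero : Ar d o C N NB 0 (0 : R → I → ℂ) 0 0 where
  nor := (Nor C N).zero_mem
  bet := fun r => (nB C N).zero_mem
  low := (Ge d 0).zero_mem
  ori := fun b h => rfl
  com := fun j => by
    have h : nbv NB ((0 : Matrix I I ℂ) j) = 0 := nbv_zero NB
    rw [h, Matrix.zero_mul, Matrix.mul_zero, sub_zero, add_zero]
    exact (Ge d 2).zero_mem
  two := fun r => by
    have h : nbv NB ((0 : R → I → ℂ) r) = 0 := nbv_zero NB
    rw [h, sub_zero]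
    exact (Ge d 2).zero_mem

variable {X X' : Matrix I I ℂ} {y y' : R → I → ℂ} {Y Y' : Matrix B B ℂ} {V V' : R → Matrix B B ℂ}

theorem Ar.add (h : Ar d o C N NB X y Y V) (h' : Ar d o C N NB X' y' Y' V') :
    Ar d o C N NB (X + X') (y + y') (Y + Y') (V + V') where
  nor := (Nor C N).add_mem h.nor h'.nor
  bet := fun r => (nB C N).add_mem (h.bet r) (h'.bet r)
  low := (Ge d 0).add_mem h.low h'.low
  ori := fun b hb => by rw [Matrix.add_apply, h.ori b hb, h'.ori b hb, add_zero]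
  com := fun j => by
    refine (congrArg (· ∈ Ge d 2) ?_).mp ((Ge d 2).add_mem (h.com j) (h'.com j))
    have h1 : nbv NB ((X + X') j) = nbv NB (X j) + nbv NB (X' j) := nbv_add NB _ _
    rw [h1, Matrix.add_mul, Matrix.mul_add]
    abel
  two := fun r => by
    refine (congrArg (· ∈ Ge d 2) ?_).mp ((Ge d 2).add_mem (h.two r) (h'.two r))
    rw [Pi.add_apply, Pi.add_apply, nbv_add]
    abel

theorem Ar.smul (a : ℂ) (h : Ar d o C N NB X y Y V) : Ar d o C N NB (a • X) (a • y) (a • Y) (a • V) where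
  nor := (Nor C N).smul_mem a h.nor
  bet := fun r => (nB C N).smul_mem a (h.bet r)
  low := (Ge d 0).smul_mem a h.low
  ori := fun b hb => by rw [Matrix.smul_apply, h.ori b hb, smul_zero]
  com := fun j => by
    refine (congrArg (· ∈ Ge d 2) ?_).mp ((Ge d 2).smul_mem a (h.com j))
    have h1 : nbv NB ((a • X) j) = a • nbv NB (X j) := nbv_smul NB _ _
    rw [h1, Matrix.smul_mul, Matrix.mul_smul, smul_add, smul_sub]
  two := fun r => by
    refine (congrArg (· ∈ Ge d 2) ?_).mp ((Ge d 2).smul_mem a (h.two r))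
    rw [Pi.smul_apply, Pi.smul_apply, nbv_smul, smul_sub]

/-- linear maps -/
theorem Ar.map {K : Subfield ℂ} (hB : DefK K C N) (hNB : ∀ j, InK K (NB j))
    (h : Ar d o C N NB X y Y V) (f : ℂ →ₗ[K] ℂ) :
    Ar d o C N NB (X.map f) (fun r j => f (y r j)) (Y.map f) (fun r => (V r).map f) where
  nor := Nor_map hB h.nor f
  bet := fun r => nB_map hB (h.bet r) f
  low := fun b b' hb => by rw [Matrix.map_apply, h.low b b' hb, map_zero]
  ori := fun b hb => by rw [Matrix.map_apply, h.ori b hb, map_zero]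
  com := fun j => by
    intro b b' hb
    have h1 := congrArg f (h.com j b b' hb)
    rw [map_zero] at h1
    rw [← h1]
    simp only [nbv, Matrix.add_apply, Matrix.sub_apply, Matrix.mul_apply, Matrix.sum_apply, Matrix.smul_apply,
      Matrix.map_apply, map_add, map_sub, map_sum, smul_eq_mul]
    congr 1
    · congr 1
      · exact Finset.sum_congr rfl fun c _ => (fK_mul f _ (hNB j _ _)).symm
      · exact Finset.sum_congr rfl fun c _ => (fK_mul' f _ (hNB j _ _)).symm
    · exact Finset.sum_congr rfl fun c _ => (fK_mul f _ (hNB c _ _)).symm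
  two := fun r => by
    intro b b' hb
    have h1 := congrArg f (h.two r b b' hb)
    rw [map_zero] at h1
    rw [← h1]
    simp only [nbv, Matrix.sub_apply, Matrix.sum_apply, Matrix.smul_apply, Matrix.map_apply, map_sub, map_sum,
      smul_eq_mul]
    congr 1
    exact Finset.sum_congr rfl fun c _ => (fK_mul f _ (hNB c _ _)).symm

theorem Ar.br (hC : Bi d C) (hN : Deg1 d N) (h : Ar d o C N NB X y Y V)
    (h' : Ar d o C N NB X' y' Y' V') :
    Ar d o C N NB (X * X' - X' * X) (fun r => y r ᵥ* X' - y' r ᵥ* X) (Y * Y' - Y' * Y)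
      (fun r => (Y * V' r - V' r * Y) - (Y' * V r - V r * Y') + (V r * V' r - V' r * V r)) where
  nor := Nor_br h.nor h'.nor
  bet := fun r => (nB C N).add_mem ((nB C N).sub_mem (h.nor _ (h'.bet r)) (h'.nor _ (h.bet r)))
    (nB_br hC (h.bet r) (h'.bet r))
  low := by
    have := Ge_br h.low h'.low
    rwa [add_zero] at this
  ori := by
    have key : ∀ {P Q : Matrix B B ℂ}, Q ∈ Ge d 0 → (∀ b, d b = 0 → P o b = 0) → ∀ b, d b = 0 → (P * Q) o b = 0 := by
      intro P Q h1 h2 b hb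
      rw [Matrix.mul_apply]
      refine Finset.sum_eq_zero fun c _ => ?_
      by_cases hc : d c = 0
      · rw [h2 c hc, zero_mul]
      · rw [h1 c b (by omega), mul_zero]
    intro b hb
    rw [Matrix.sub_apply, key h'.low h.ori b hb, key h.low h'.ori b hb, sub_zero]
  com := fun j => by
    have e1 := Ge_br h.low (h'.com j)
    have e2 := Ge_br h'.low (h.com j)
    rw [zero_add] at e1 e2
    have e3 := com_w h.com (X' j)
    have e4 := com_w h'.com (X j)
    have e5 := (Ge d 2).add_mem ((Ge d 2).sub_mem e1 e2) ((Ge d 2).sub_mem e4 e3)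
    refine (congrArg (· ∈ Ge d 2) ?_).mp e5
    have e6 : (X * X' - X' * X) j = X j ᵥ* X' - X' j ᵥ* X := by
      funext i
      rfl
    rw [e6, nbv_sub]
    simp only [Matrix.mul_add, Matrix.add_mul, Matrix.mul_sub, Matrix.sub_mul, Matrix.mul_assoc]
    abel
  two := fun r => by
    have e1 := br_two h.low h.com (h'.two r)
    have e2 := br_two h'.low h'.com (h.two r)
    have e3 := Ge_br (nB_Ge hC hN (h.bet r)) (nB_Ge hC hN (h'.bet r))
    have e4 := (Ge d 2).add_mem ((Ge d 2).sub_mem e1 e2) e3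
    refine (congrArg (· ∈ Ge d 2) ?_).mp e4
    rw [nbv_sub]
    abel

/-- a relation between the component of the arbitrary object and the component of the fibre -/
structure Lk (d : B → ℕ) (C₀ : Matrix M M ℂ) (C : Matrix B B ℂ) (lk : Matrix M M ℂ → Matrix B B ℂ → Prop) : Prop where
  zero : lk 0 0
  add : ∀ {z z' : Matrix M M ℂ} {Y Y' : Matrix B B ℂ}, lk z Y → lk z' Y' → lk (z + z') (Y + Y')
  smul : ∀ (a : ℂ) {z : Matrix M M ℂ} {Y : Matrix B B ℂ}, lk z Y → lk (a • z) (a • Y)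
  map : ∀ (f : ℂ →ₗ[QQ] ℂ) {z : Matrix M M ℂ} {Y : Matrix B B ℂ}, lk z Y → lk (z.map f) (Y.map f)
  br : ∀ {z z' : Matrix M M ℂ} {Y Y' : Matrix B B ℂ}, Y ∈ Ge d 0 → Y' ∈ Ge d 0 → lk z Y → lk z' Y' →
    lk (z * z' - z' * z) (Y * Y' - Y' * Y)
  der : ∀ D : Derivation QBar ℂ ℂ, lk (C₀.map D * C₀⁻¹) (C.map D * C⁻¹)

/-- the elements with given components of degree at most one -/
structure Az (T : Set (Matrix (M ⊕ (B ⊕ (B × R))) (M ⊕ (B ⊕ (B × R))) ℂ)) (d : B → ℕ) (o : B) (C : Matrix B B ℂ)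
    (N : S → Matrix B B ℂ) (NB : I → Matrix B B ℂ) (lk : Matrix M M ℂ → Matrix B B ℂ → Prop) (z : Matrix M M ℂ)
    (X : Matrix I I ℂ) (y : R → I → ℂ) (Y : Matrix B B ℂ) (V : R → Matrix B B ℂ) : Prop where
  mem : fl (qz z Y V) ∈ LL T
  lnk : lk z Y
  ar : Ar d o C N NB X y Y V

variable {C₀ : Matrix M M ℂ} {lk : Matrix M M ℂ → Matrix B B ℂ → Prop} {z z' : Matrix M M ℂ}

theorem Az.zero (hl : Lk d C₀ C lk) : Az T d o C N NB lk 0 0 (0 : R → I → ℂ) 0 0 where
  mem := by
    rw [qz_zero, fl_zero]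
    exact (LL T).zero_mem
  lnk := hl.zero
  ar := Ar.zero

theorem Az.add (hl : Lk d C₀ C lk) (h : Az T d o C N NB lk z X y Y V) (h' : Az T d o C N NB lk z' X' y' Y' V') :
    Az T d o C N NB lk (z + z') (X + X') (y + y') (Y + Y') (V + V') where
  mem := by
    rw [qz_add, fl_add]
    exact (LL T).add_mem h.mem h'.mem
  lnk := hl.add h.lnk h'.lnk
  ar := h.ar.add h'.ar

theorem Az.smul (hl : Lk d C₀ C lk) (a : ℂ) (h : Az T d o C N NB lk z X y Y V) :
    Az T d o C N NB lk (a • z) (a • X) (a • y) (a • Y) (a • V) where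
  mem := by
    rw [qz_smul, fl_smul]
    exact (LL T).smul_mem a h.mem
  lnk := hl.smul a h.lnk
  ar := h.ar.smul a

theorem Az.map (hl : Lk d C₀ C lk) (hdef : DefOver QQ (LL T)) (hB : DefK QQ C N) (hNB : ∀ j, InK QQ (NB j))
    (h : Az T d o C N NB lk z X y Y V) (f : ℂ →ₗ[QQ] ℂ) :
    Az T d o C N NB lk (z.map f) (X.map f) (fun r j => f (y r j)) (Y.map f) (fun r => (V r).map f) where
  mem := by
    rw [← qz_map f]
    exact hdef.map f h.mem
  lnk := hl.map f h.lnk
  ar := h.ar.map hB hNB f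

theorem Az.br (hl : Lk d C₀ C lk) (hC : Bi d C) (hN : Deg1 d N) (h : Az T d o C N NB lk z X y Y V)
    (h' : Az T d o C N NB lk z' X' y' Y' V') :
    Az T d o C N NB lk (z * z' - z' * z) (X * X' - X' * X) (fun r => y r ᵥ* X' - y' r ᵥ* X) (Y * Y' - Y' * Y)
      (fun r => (Y * V' r - V' r * Y) - (Y' * V r - V r * Y') + (V r * V' r - V' r * V r)) where
  mem := by
    rw [← qz_br]
    exact LL_br h.mem h'.mem
  lnk := hl.br h.ar.low h'.ar.low h.lnk h'.lnk
  ar := h.ar.br hC hN h'.ar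

end Pool.Agent.KS6_11.G
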