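import Pool.Graph.R_pool_sql_team_seeded_64922ed1.X306.CV.Zed
import Pool.Graph.R_pool_sql_team_seeded_ab47071d.TH128.OM.Gb

/-!
# The Lie algebra of an arbitrary object and the 1-motives of an abelian variety
-/

set_option autoImplicit false
set_option linter.unusedVariables false
set_option linter.unusedSectionVars false
set_option linter.unusedSimpArgs false

open Matrix Module

noncomputable section

namespace Pool.Agent.KS6_11.G

open Pool.Agent.W516.DR Pool.Agent.W245.EB Pool.Agent.Y102 Pool.Agent.W516.KC Pool.Agent.W516.KC2 Pool.Agent.H204R3.GP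
open Pool.Agent.TH127.PT Pool.Agent.TH119.DR Pool.Agent.Y123.ST
open Pool.Agent.X306.EM (QB_iff QQ mem_QQ)
open Pool.Agent.X306.MT
open Pool.Agent.X306.MZ (InK)
open Pool.Agent.X306.CV
open Pool.Agent.X306.AV (GT LT cb cmp cb_cmp cb_add cb_smul cb_zero row_mul Good pers PA PA_inv inv_PA UU eqv ratc mt dQ
  X0_eq hh lam per_eq lam_per uA mem_uA mem_of_comp Fld Pt Lt)

variable {g : ℕ} {A : AbVar g} {M : Type} [Fintype M] [DecidableEq M] {R : Type} [Fintype R] [DecidableEq R]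

/-- triples: the component of the arbitrary object, of the abelian variety, and of the points -/
abbrev T3 (M : Type) (g : ℕ) (R : Type) : Type :=
  Matrix M M ℂ × Matrix (Fin (2 * g)) (Fin (2 * g)) ℂ × (R → Fin (2 * g) → ℂ)

/-- the properties of the Lie algebra -/
structure Cl (A : AbVar g) (C₀ : Matrix M M ℂ) (u e : R → Fin g → ℂ) (Λ : Submodule ℂ (T3 M g R)) : Prop where
  br : ∀ {z z' : Matrix M M ℂ} {X X' : Matrix (Fin (2 * g)) (Fin (2 * g)) ℂ} {y y' : R → Fin (2 * g) → ℂ},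
    (z, X, y) ∈ Λ → (z', X', y') ∈ Λ →
    (z * z' - z' * z, X * X' - X' * X, fun r => y r ᵥ* X' - y' r ᵥ* X) ∈ Λ
  map : ∀ (f : ℂ →ₗ[QQ] ℂ) {z : Matrix M M ℂ} {X : Matrix (Fin (2 * g)) (Fin (2 * g)) ℂ} {y : R → Fin (2 * g) → ℂ},
    (z, X, y) ∈ Λ → (z.map f, X.map f, fun r j => f (y r j)) ∈ Λ
  log : ∀ D : Derivation QBar ℂ ℂ, (C₀.map D * C₀⁻¹, (PA A).map D * (PA A)⁻¹,
    fun r => (fun i => D (ll u e r i)) ᵥ* (PA A)⁻¹) ∈ Λ

/-- the rational elements -/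
def gL (A : AbVar g) (Λ : Submodule ℂ (T3 M g R)) : Submodule ℚ (GT (Fin (2 * g)) R Empty) where
  carrier := {ξ | (∀ v w, A.om (ξ.1 v) w + A.om v (ξ.1 w) = ξ.2.2.1 * A.om v w) ∧
    ∃ z, ((z, (cb ξ).1, (cb ξ).2.1) : T3 M g R) ∈ Λ}
  zero_mem' := by
    refine ⟨fun v w => ?_, 0, ?_⟩
    · change A.om (0 : Fin (2 * g) → ℚ) w + A.om v (0 : Fin (2 * g) → ℚ) = 0 * A.om v w
      rw [map_zero, LinearMap.zero_apply, map_zero, zero_mul, add_zero]
    · rw [cb_zero]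
      exact Λ.zero_mem
  add_mem' := by
    rintro ξ ξ' ⟨h1, z, h2⟩ ⟨h3, z', h4⟩
    refine ⟨fun v w => ?_, z + z', ?_⟩
    · change A.om (ξ.1 v + ξ'.1 v) w + A.om v (ξ.1 w + ξ'.1 w) = (ξ.2.2.1 + ξ'.2.2.1) * A.om v w
      rw [map_add, LinearMap.add_apply, map_add]
      linear_combination h1 v w + h3 v w
    · rw [cb_add]
      exact Λ.add_mem h2 h4
  smul_mem' := by
    rintro q ξ ⟨h1, z, h2⟩
    refine ⟨fun v w => ?_, (q : ℂ) • z, ?_⟩
    · change A.om (q • ξ.1 v) w + A.om v (q • ξ.1 w) = (q * ξ.2.2.1) * A.om v w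
      rw [map_smul, LinearMap.smul_apply, map_smul, smul_eq_mul, smul_eq_mul]
      linear_combination q * h1 v w
    · rw [cb_smul]
      exact Λ.smul_mem (q : ℂ) h2

theorem mem_gL {Λ : Submodule ℂ (T3 M g R)} {ξ : GT (Fin (2 * g)) R Empty} : ξ ∈ gL A Λ ↔
    (∀ v w, A.om (ξ.1 v) w + A.om v (ξ.1 w) = ξ.2.2.1 * A.om v w) ∧
      ∃ z, ((z, (cb ξ).1, (cb ξ).2.1) : T3 M g R) ∈ Λ := Iff.rfl

variable {C₀ : Matrix M M ℂ} {u e : R → Fin g → ℂ} {Λ : Submodule ℂ (T3 M g R)}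

theorem Cl.good (H : Cl A C₀ u e Λ) (l : Empty → ℂ) : Good A u e l (gL A Λ) where
  skew ξ hξ := hξ.1
  br ξ hξ ξ' hξ' := by
    obtain ⟨h1, z, h2⟩ := hξ
    obtain ⟨h1', z', h2'⟩ := hξ'
    refine mem_gL.2 ⟨fun v w => ?_, ?_⟩
    · change A.om (ξ'.1 (ξ.1 v) - ξ.1 (ξ'.1 v)) w + A.om v (ξ'.1 (ξ.1 w) - ξ.1 (ξ'.1 w)) = 0 * A.om v w
      rw [map_sub, LinearMap.sub_apply, map_sub]
      linear_combination h1' (ξ.1 v) w - h1 (ξ'.1 v) w + h1' v (ξ.1 w) - h1 v (ξ'.1 w) -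
        ξ.2.2.1 * h1' v w + ξ'.2.2.1 * h1 v w
    · rw [cb_br1, cb_br2]
      exact ⟨_, H.br h2 h2'⟩
  der D f := by
    refine mem_gL.2 ⟨fun v w => ?_, ?_⟩
    · have hom : IsDeRhamBettiBilinear QBar A.basis (2 * Real.pi * Complex.I) A.om := by
        rw [AbVar.coe_basis]
        exact A.om_drb
      have h1 := skew_of_mem A.basis AbVar.tau_ne A.om hom (X0_mem A.basis AbVar.tau_ne D f) v w
      rw [X0_eq A u e l D f] at h1
      simp only [LinearMap.sub_apply, LinearMap.smul_apply, Module.End.one_apply, map_sub, map_smul, smul_eq_mul] at h1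
      linear_combination h1
    · have h2 := H.map (ratc f) (H.log D)
      rw [cb_cmp]
      exact ⟨_, h2⟩

/-- the distinguished element -/
theorem Cl.exists_e (H : Cl A C₀ u e Λ) : ∃ z X y, (z, X, y) ∈ Λ ∧ ∃ h : ℝ, h ≠ 0 ∧
    ∀ t : ℂ, t.re ≠ h → ∀ v : Fin (2 * g) → ℂ, v ᵥ* X = t • v → v = 0 := by
  have G := H.good (fun j => j.elim)
  obtain ⟨ξ, hξ, ζ, hc, h1, hs, hcen⟩ := G.exists_Z
  obtain ⟨Mm, hM⟩ := G.hodge hcen
  obtain ⟨_, z, hA⟩ := hξ
  have hX : (cb ξ).1 = (((ξ.2.2.1 / 2 : ℚ)) : ℂ) • (1 : Matrix (Fin (2 * g)) (Fin (2 * g)) ℂ) + mt ζ := by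
    ext i j
    change ((ξ.1 (Pi.single i 1) j : ℚ) : ℂ) = _
    rw [h1, Matrix.add_apply, Matrix.smul_apply, smul_eq_mul]
    change (((ξ.2.2.1 / 2) * (Pi.single i 1 : Fin (2 * g) → ℚ) j + ζ (Pi.single i 1) j : ℚ) : ℂ) =
      (((ξ.2.2.1 / 2 : ℚ)) : ℂ) * (1 : Matrix (Fin (2 * g)) (Fin (2 * g)) ℂ) i j + ((ζ (Pi.single i 1) j : ℚ) : ℂ)
    by_cases hij : i = j
    · subst hij
      rw [Pi.single_eq_same, Matrix.one_apply_eq, mul_one, mul_one, Rat.cast_add]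
    · rw [Pi.single_eq_of_ne (Ne.symm hij), Matrix.one_apply_ne hij, mul_zero, mul_zero, zero_add, zero_add]
  refine ⟨_, _, _, hA, ((ξ.2.2.1 / 2 : ℚ) : ℝ), ?_, fun t ht v hv => ?_⟩
  · have : ξ.2.2.1 / 2 ≠ 0 := div_ne_zero hc (by norm_num)
    exact_mod_cast this
  · refine eig_im hs hM (μ := t - ((ξ.2.2.1 / 2 : ℚ) : ℂ)) ?_ (v := v) ?_
    · rw [Complex.sub_re, Complex.ratCast_re]
      intro h
      exact ht (sub_eq_zero.1 h)
    · rw [hX, Matrix.vecMul_add, Matrix.vecMul_smul, Matrix.vecMul_one] at hv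
      rw [sub_smul, ← hv]
      abel

variable {F : IntermediateField ℚ ℂ}

/-- the elements with given logarithms -/
theorem Cl.exists_z (H : Cl A C₀ u e Λ) (hF : Fld A F) (hu : ∀ r, u r ∈ Pt A F)
    (hind : ∀ (Q : R → (Fin g → ℂ) →ₗ[ℂ] (Fin g → ℂ)), (∀ r, ∀ w ∈ Lt A, Q r w ∈ Lt A) →
      ∑ r, Q r (u r) ∈ Lt A → ∀ r, Q r = 0) (y : R → Fin (2 * g) → ℂ) :
    ∃ z, ((z, 0, y) : T3 M g R) ∈ Λ := by
  have G := H.good (fun j => j.elim)
  let W : Submodule ℂ (R × Fin (2 * g) → ℂ) :=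
    { carrier := {y | ∃ z, ((z, 0, fun r j => y (r, j)) : T3 M g R) ∈ Λ}
      zero_mem' := ⟨0, Λ.zero_mem⟩
      add_mem' := by
        rintro y y' ⟨z, h⟩ ⟨z', h'⟩
        have h1 := Λ.add_mem h h'
        refine ⟨z + z', ?_⟩
        refine (congrArg (· ∈ Λ) ?_).mp h1
        refine Prod.ext rfl (Prod.ext ?_ rfl)
        exact add_zero _
      smul_mem' := by
        rintro a y ⟨z, h⟩
        have h1 := Λ.smul_mem a h
        refine ⟨a • z, ?_⟩
        refine (congrArg (· ∈ Λ) ?_).mp h1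
        refine Prod.ext rfl (Prod.ext ?_ rfl)
        exact smul_zero _ }
  have hW : (fun p : R × Fin (2 * g) => y p.1 p.2) ∈ W := by
    refine mem_of_comp W fun f => ?_
    have hN : ∀ (Q : R → (Fin g → ℂ) →ₗ[ℂ] (Fin g → ℂ)) (m : R → Matrix (Fin (2 * g)) (Fin (2 * g)) ℤ),
        (∀ r j, Q r (A.lam j) = ∑ i, (m r j i : ℂ) • A.lam i) → ∑ r, Q r (u r) ∈ Lt A →
        ∀ i, ∑ r, ∑ j, y r j * (m r j i : ℂ) = 0 := by
      intro Q m hQ hs i
      have h1 : ∀ s, ∀ w ∈ Lt A, Q s w ∈ Lt A := fun s => Pool.Agent.X306.AV.lt_stable fun j => by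
        rw [hQ]
        refine (Lt A).sum_mem fun i _ => ?_
        rw [Pool.Agent.X306.AV.int_smul]
        exact (Lt A).smul_mem _ (Submodule.subset_span ⟨i, rfl⟩)
      have h2 := hind Q h1 hs
      have h3 : ∀ s j i, m s j i = 0 := by
        intro s j
        have h4 := hQ s j
        rw [h2 s, LinearMap.zero_apply] at h4
        have h5 := Fintype.linearIndependent_iff.1 A.lam.linearIndependent (fun i => ((m s j i : ℤ) : ℝ)) (by
          rw [h4]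
          refine Finset.sum_congr rfl fun i _ => ?_
          funext k
          simp)
        intro i
        exact_mod_cast h5 i
      refine Finset.sum_eq_zero fun s _ => Finset.sum_eq_zero fun j _ => ?_
      rw [h3, Int.cast_zero, mul_zero]
    have h1 := mem_uA.1 (G.uA_mem hF hu hN f)
    obtain ⟨_, z, h2⟩ := h1
    have h3 : (cb ((0, fun r j => f (y r j), 0, 0) : GT (Fin (2 * g)) R Empty)).1 = 0 := by
      ext i j
      change (((0 : Module.End ℚ (Fin (2 * g) → ℚ)) (Pi.single i 1) j : ℚ) : ℂ) = 0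
      exact Rat.cast_zero
    rw [h3] at h2
    exact ⟨z, h2⟩
  exact hW

/-- the smallest Lie algebra -/
def Lmin (A : AbVar g) (C₀ : Matrix M M ℂ) (u e : R → Fin g → ℂ) : Submodule ℂ (T3 M g R) :=
  sInf {Λ | Cl A C₀ u e Λ}

theorem Lmin_le (H : Cl A C₀ u e Λ) : Lmin A C₀ u e ≤ Λ := sInf_le H

theorem cl_Lmin : Cl A C₀ u e (Lmin A C₀ u e) where
  br h h' := by
    unfold Lmin at h h' ⊢
    rw [Submodule.mem_sInf] at h h' ⊢
    exact fun Λ hΛ => hΛ.br (h Λ hΛ) (h' Λ hΛ)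
  map f _ _ _ h := by
    unfold Lmin at h ⊢
    rw [Submodule.mem_sInf] at h ⊢
    exact fun Λ hΛ => hΛ.map f (h Λ hΛ)
  log D := by
    unfold Lmin
    rw [Submodule.mem_sInf]
    exact fun Λ hΛ => hΛ.log D

/-- the restriction to fewer points -/
theorem Lmin_rest {R' : Type} [Fintype R'] [DecidableEq R'] (i : R' → R) {z : Matrix M M ℂ}
    {X : Matrix (Fin (2 * g)) (Fin (2 * g)) ℂ} {y : R → Fin (2 * g) → ℂ} (h : (z, X, y) ∈ Lmin A C₀ u e) :
    ((z, X, fun r => y (i r)) : T3 M g R') ∈ Lmin A C₀ (fun r => u (i r)) (fun r => e (i r)) := by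
  let φ : T3 M g R →ₗ[ℂ] T3 M g R' :=
    { toFun := fun p => (p.1, p.2.1, fun r => p.2.2 (i r))
      map_add' := fun _ _ => rfl
      map_smul' := fun _ _ => rfl }
  have h1 : Cl A C₀ u e ((Lmin A C₀ (fun r => u (i r)) (fun r => e (i r))).comap φ) :=
    { br := fun h h' => (cl_Lmin (A := A) (C₀ := C₀) (u := fun r => u (i r)) (e := fun r => e (i r))).br h h'
      map := fun f _ _ _ h =>
        (cl_Lmin (A := A) (C₀ := C₀) (u := fun r => u (i r)) (e := fun r => e (i r))).map f h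
      log := fun D => (cl_Lmin (A := A) (C₀ := C₀) (u := fun r => u (i r)) (e := fun r => e (i r))).log D }
  exact Lmin_le h1 h

end Pool.Agent.KS6_11.G
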