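import Pool.Graph.R_pool_sql_team_seeded_64922ed1.X306.CV.Re
import Pool.Graph.R_pool_sql_team_seeded_ab47071d.TH128.OM.Gb

/-!
# Linear algebra for the dimension of the unipotent part
-/

set_option autoImplicit false
set_option linter.unusedVariables false
set_option linter.unusedSectionVars false
set_option linter.unusedSimpArgs false

open Matrix Module

noncomputable section

namespace Pool.Agent.KS6_11.G

open Pool.Agent.TH128.OM (adL adL_apply exists_basis)

section shift

variable {B : Type} [Fintype B] [DecidableEq B]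

theorem shift' (Z : Matrix B B ℂ) (l t : ℂ) : ∀ (s m n : ℕ), m + n = s → ∀ (w : Matrix B B ℂ)
    (v : B → ℂ), ((adL Z - t • 1) ^ m) w = 0 →
    ((Matrix.toLin' Z - l • 1) ^ n) v = 0 →
    ((Matrix.toLin' Z - (l + t) • 1) ^ s) (w *ᵥ v) = 0 := by
  intro s
  induction s with
  | zero =>
    intro m n hmn w v hw hv
    obtain ⟨rfl, rfl⟩ : m = 0 ∧ n = 0 := by omega
    rw [pow_zero] at hw ⊢
    have h1 : w = 0 := hw
    rw [h1, Matrix.zero_mulVec]
    rfl
  | succ s ih =>
    intro m n hmn w v hw hv
    rcases Nat.eq_zero_or_pos m with rfl | hm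
    · rw [pow_zero] at hw
      have h1 : w = 0 := hw
      rw [h1, Matrix.zero_mulVec, map_zero]
    rcases Nat.eq_zero_or_pos n with rfl | hn
    · rw [pow_zero] at hv
      have h1 : v = 0 := hv
      rw [h1, Matrix.mulVec_zero, map_zero]
    obtain ⟨m, rfl⟩ : ∃ m', m = m' + 1 := ⟨m - 1, by omega⟩
    obtain ⟨n, rfl⟩ : ∃ n', n = n' + 1 := ⟨n - 1, by omega⟩
    rw [pow_succ, Module.End.mul_apply] at hw hv ⊢
    have e1 : (Matrix.toLin' Z - (l + t) • (1 : Module.End ℂ (B → ℂ))) (w *ᵥ v) =
        ((adL Z - t • 1) w) *ᵥ v + w *ᵥ ((Matrix.toLin' Z - l • 1) v) := by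
      rw [LinearMap.sub_apply, LinearMap.sub_apply, LinearMap.sub_apply, adL_apply,
        LinearMap.smul_apply, LinearMap.smul_apply, LinearMap.smul_apply, Module.End.one_apply,
        Module.End.one_apply, Module.End.one_apply, Matrix.toLin'_apply, Matrix.toLin'_apply,
        Matrix.sub_mulVec, Matrix.sub_mulVec, Matrix.mulVec_sub, Matrix.smul_mulVec,
        Matrix.mulVec_smul, Matrix.mulVec_mulVec, Matrix.mulVec_mulVec]
      module
    rw [e1, map_add, ih m (n + 1) (by omega) _ v hw (by
      rw [pow_succ, Module.End.mul_apply]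
      exact hv), ih (m + 1) n (by omega) w _ (by
      rw [pow_succ, Module.End.mul_apply]
      exact hw) hv, add_zero]

theorem card_pairs' {ι : Type} [Fintype ι] [DecidableEq ι] (μ : ι → ℝ) (h : ℝ) (hh : h ≠ 0) :
    4 * Fintype.card {p : ι × ι // μ p.1 = μ p.2 + h} ≤ Fintype.card ι ^ 2 := by
  classical
  have hs : ∀ k i : ι, μ k = μ i + h → (Even ⌊μ k / h⌋ ↔ ¬ Even ⌊μ i / h⌋) := by
    intro k i h1
    rw [h1, add_div, div_self hh, Int.floor_add_one]
    exact Int.even_add_one
  let S : Finset ι := Finset.univ.filter fun k => Even ⌊μ k / h⌋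
  let S' : Finset ι := Finset.univ.filter fun k => ¬ Even ⌊μ k / h⌋
  have hcard : S.card + S'.card = Fintype.card ι := by
    rw [← Finset.card_univ]
    exact Finset.card_filter_add_card_filter_not _
  let g : {p : ι × ι // μ p.1 = μ p.2 + h} → S ×ˢ S' := fun p =>
    if h1 : Even ⌊μ p.1.1 / h⌋ then
      ⟨(p.1.1, p.1.2), Finset.mem_product.2 ⟨Finset.mem_filter.2 ⟨Finset.mem_univ _, h1⟩,
        Finset.mem_filter.2 ⟨Finset.mem_univ _, (hs _ _ p.2).1 h1⟩⟩⟩
    else
      ⟨(p.1.2, p.1.1), Finset.mem_product.2 ⟨Finset.mem_filter.2 ⟨Finset.mem_univ _, by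
        by_contra h2
        exact h1 ((hs _ _ p.2).2 h2)⟩,
        Finset.mem_filter.2 ⟨Finset.mem_univ _, h1⟩⟩⟩
  have hg : Function.Injective g := by
    rintro ⟨⟨k, i⟩, hp⟩ ⟨⟨k', i'⟩, hp'⟩ h0
    change μ k = μ i + h at hp
    change μ k' = μ i' + h at hp'
    simp only [g] at h0
    split_ifs at h0 with h1 h2 h2
    · have h3 := congrArg Subtype.val h0
      simp only [Prod.mk.injEq] at h3
      exact Subtype.ext (Prod.ext h3.1 h3.2)
    · have h3 := congrArg Subtype.val h0
      simp only [Prod.mk.injEq] at h3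
      obtain ⟨rfl, rfl⟩ := h3
      exfalso
      exact hh (by linarith)
    · have h3 := congrArg Subtype.val h0
      simp only [Prod.mk.injEq] at h3
      obtain ⟨rfl, rfl⟩ := h3
      exfalso
      exact hh (by linarith)
    · have h3 := congrArg Subtype.val h0
      simp only [Prod.mk.injEq] at h3
      exact Subtype.ext (Prod.ext h3.2 h3.1)
  have h1 := Fintype.card_le_of_injective g hg
  rw [Fintype.card_coe, Finset.card_product] at h1
  rw [← hcard]
  nlinarith [sq_nonneg ((S.card : ℤ) - S'.card), h1]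

/-- the part where the real parts of the eigenvalues are `h` -/
def Gre {V : Type} [AddCommGroup V] [Module ℂ V] (f : Module.End ℂ V) (h : ℝ) : Submodule ℂ V :=
  ⨆ t : {t : ℂ // t.re = h}, f.maxGenEigenspace t.1

/-- **The part of the adjoint action with given real part is small.** -/
theorem gen_bound' (Z : Matrix B B ℂ) {h : ℝ} (hh : h ≠ 0) :
    4 * finrank ℂ (Gre (adL Z : Module.End ℂ (Matrix B B ℂ)) h) ≤ Fintype.card B ^ 2 := by
  classical
  obtain ⟨ι, _, e, μ, he, hrep⟩ := exists_basis (Matrix.toLin' Z)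
  have hcard : Fintype.card ι = Fintype.card B := by
    rw [← Module.finrank_eq_card_basis e, Module.finrank_fintype_fun_eq_card]
  let F : Gre (adL Z : Module.End ℂ (Matrix B B ℂ)) h →ₗ[ℂ]
      ({p : ι × ι // (μ p.1).re = (μ p.2).re + h} → ℂ) :=
    { toFun := fun w p => e.repr (w.1 *ᵥ e p.1.2) p.1.1
      map_add' := by
        intro w w'
        funext p
        change e.repr ((w.1 + w'.1) *ᵥ e p.1.2) p.1.1 = _
        rw [Matrix.add_mulVec, map_add]
        rfl
      map_smul' := by
        intro c w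
        funext p
        change e.repr ((c • w.1) *ᵥ e p.1.2) p.1.1 = _
        rw [Matrix.smul_mulVec, map_smul]
        rfl }
  have key : ∀ w ∈ Gre (adL Z : Module.End ℂ (Matrix B B ℂ)) h, ∀ i k, (μ k).re ≠ (μ i).re + h →
      e.repr (w *ᵥ e i) k = 0 := by
    intro w hw i k hk
    unfold Gre at hw
    induction hw using Submodule.iSup_induction' with
    | mem t w hw =>
      refine hrep (μ i + t.1) _ ?_ k ?_
      · obtain ⟨m, hm⟩ := (Module.End.mem_maxGenEigenspace _ _ _).1 hw
        obtain ⟨n, hn⟩ := (Module.End.mem_maxGenEigenspace _ _ _).1 (he i)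
        exact (Module.End.mem_maxGenEigenspace _ _ _).2
          ⟨m + n, shift' Z (μ i) t.1 (m + n) m n rfl w (e i) hm hn⟩
      · intro h1
        apply hk
        rw [h1, Complex.add_re, t.2]
    | zero =>
      rw [Matrix.zero_mulVec, map_zero, Finsupp.zero_apply]
    | add x y _ _ hx hy =>
      rw [Matrix.add_mulVec, map_add, Finsupp.add_apply, hx, hy, add_zero]
  have hF : Function.Injective F := by
    rw [← LinearMap.ker_eq_bot, LinearMap.ker_eq_bot']
    intro w hw
    apply Subtype.ext
    have h1 : ∀ i, w.1 *ᵥ e i = 0 := by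
      intro i
      have h2 : e.repr (w.1 *ᵥ e i) = 0 := by
        ext k
        rw [Finsupp.zero_apply]
        by_cases hk : (μ k).re = (μ i).re + h
        · exact congrFun hw ⟨(k, i), hk⟩
        · exact key w.1 w.2 i k hk
      exact (LinearEquiv.map_eq_zero_iff _).1 h2
    have h3 : Matrix.toLin' w.1 = 0 := by
      refine e.ext fun i => ?_
      rw [Matrix.toLin'_apply, h1, LinearMap.zero_apply]
    exact (LinearEquiv.map_eq_zero_iff _).1 h3
  have h1 := LinearMap.finrank_le_finrank_of_injective hF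
  rw [Module.finrank_fintype_fun_eq_card] at h1
  have h2 := card_pairs' (fun i => (μ i).re) h hh
  rw [hcard] at h2
  omega

end shift

section lifts

variable {V W : Type} [AddCommGroup V] [Module ℂ V] [FiniteDimensional ℂ V] [AddCommGroup W] [Module ℂ W]
  [FiniteDimensional ℂ W]

theorem Gre_stable (f : Module.End ℂ V) (h : ℝ) : ∀ v ∈ Gre f h, f v ∈ Gre f h := by
  intro v hv
  unfold Gre at hv ⊢
  induction hv using Submodule.iSup_induction' with
  | mem t w hw =>
    refine Submodule.mem_iSup_of_mem t ?_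
    exact Module.End.mapsTo_maxGenEigenspace_of_comm (Commute.refl f) t.1 hw
  | zero =>
    rw [map_zero]
    exact Submodule.zero_mem _
  | add x y _ _ hx hy =>
    rw [map_add]
    exact Submodule.add_mem _ hx hy

theorem aeval_stable (f : Module.End ℂ V) {U : Submodule ℂ V} (hU : ∀ v ∈ U, f v ∈ U) (p : Polynomial ℂ) :
    ∀ v ∈ U, Polynomial.aeval f p v ∈ U := by
  intro v hv
  induction p using Polynomial.induction_on' with
  | add p q hp hq =>
    rw [map_add, LinearMap.add_apply]
    exact U.add_mem hp hq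
  | monomial n a =>
    rw [Polynomial.aeval_monomial, Module.End.mul_apply, Module.algebraMap_end_apply]
    refine U.smul_mem _ ?_
    induction n with
    | zero => exact hv
    | succ n ih =>
      rw [pow_succ', Module.End.mul_apply]
      exact hU _ ih

/-- lifts with real part `h` -/
theorem lift_part (N : Submodule ℂ (V × W)) (f : Module.End ℂ V) (k : Module.End ℂ W) (h : ℝ)
    (hN : ∀ p ∈ N, (f p.1, k p.2) ∈ N) (hk : ∀ t : ℂ, t.re ≠ h → ∀ w, k w = t • w → w = 0)
    (htop : ∀ w, ∃ z, (z, w) ∈ N) (w : W) : ∃ z ∈ Gre f h, (z, w) ∈ N := by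
  -- polynomials
  have hpoly : ∀ z : V, ∃ p : Polynomial ℂ, Function.Injective (Polynomial.aeval k p) ∧
      Polynomial.aeval f p z ∈ Gre f h := by
    intro z
    have hz : z ∈ ⨆ t : ℂ, f.maxGenEigenspace t := by
      rw [Module.End.iSup_maxGenEigenspace_eq_top]
      exact Submodule.mem_top
    induction hz using Submodule.iSup_induction' with
    | mem t z hz =>
      by_cases ht : t.re = h
      · refine ⟨1, ?_, ?_⟩
        · rw [map_one]
          exact fun x y hxy => hxy
        · rw [map_one, Module.End.one_apply]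
          unfold Gre
          exact Submodule.mem_iSup_of_mem ⟨t, ht⟩ hz
      · obtain ⟨m, hm⟩ := (Module.End.mem_maxGenEigenspace _ _ _).1 hz
        refine ⟨(Polynomial.X - Polynomial.C t) ^ m, ?_, ?_⟩
        · rw [map_pow, map_sub, Polynomial.aeval_X, Polynomial.aeval_C]
          have h1 : Function.Injective (k - algebraMap ℂ (Module.End ℂ W) t) := by
            rw [← LinearMap.ker_eq_bot, LinearMap.ker_eq_bot']
            intro w hw
            refine hk t ht w ?_
            rw [LinearMap.sub_apply, Module.algebraMap_end_apply, sub_eq_zero] at hw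
            exact hw
          rw [Module.End.coe_pow]
          exact h1.iterate m
        · rw [map_pow, map_sub, Polynomial.aeval_X, Polynomial.aeval_C, Algebra.algebraMap_eq_smul_one, hm]
          exact Submodule.zero_mem _
    | zero =>
      refine ⟨1, ?_, ?_⟩
      · rw [map_one]
        exact fun x y hxy => hxy
      · rw [map_zero]
        exact Submodule.zero_mem _
    | add x y _ _ hx hy =>
      obtain ⟨p, hp1, hp2⟩ := hx
      obtain ⟨q, hq1, hq2⟩ := hy
      refine ⟨p * q, ?_, ?_⟩
      · rw [map_mul]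
        exact hp1.comp hq1
      · rw [map_add]
        refine Submodule.add_mem _ ?_ ?_
        · rw [mul_comm, map_mul, Module.End.mul_apply]
          exact aeval_stable f (Gre_stable f h) q _ hp2
        · rw [map_mul, Module.End.mul_apply]
          exact aeval_stable f (Gre_stable f h) p _ hq2
  have hNp : ∀ (p : Polynomial ℂ), ∀ q ∈ N, (Polynomial.aeval f p q.1, Polynomial.aeval k p q.2) ∈ N := by
    intro p q hq
    induction p using Polynomial.induction_on' with
    | add p p' hp hp' =>
      rw [map_add, map_add, LinearMap.add_apply, LinearMap.add_apply]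
      exact N.add_mem hp hp'
    | monomial n a =>
      rw [Polynomial.aeval_monomial, Polynomial.aeval_monomial, Module.End.mul_apply, Module.End.mul_apply,
        Module.algebraMap_end_apply, Module.algebraMap_end_apply]
      have h1 : ((f ^ n) q.1, (k ^ n) q.2) ∈ N := by
        induction n with
        | zero => exact hq
        | succ n ih =>
          rw [pow_succ', pow_succ', Module.End.mul_apply, Module.End.mul_apply]
          exact hN _ ih
      exact N.smul_mem a h1
  let N' : Submodule ℂ W :=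
    { carrier := {w | ∃ z ∈ Gre f h, (z, w) ∈ N}
      zero_mem' := ⟨0, Submodule.zero_mem _, N.zero_mem⟩
      add_mem' := by
        rintro w w' ⟨z, h1, h2⟩ ⟨z', h1', h2'⟩
        exact ⟨z + z', Submodule.add_mem _ h1 h1', N.add_mem h2 h2'⟩
      smul_mem' := by
        rintro a w ⟨z, h1, h2⟩
        exact ⟨a • z, Submodule.smul_mem _ a h1, N.smul_mem a h2⟩ }
  have hN' : ∀ w ∈ N', k w ∈ N' := by
    rintro w ⟨z, h1, h2⟩
    exact ⟨f z, Gre_stable f h z h1, hN _ h2⟩
  obtain ⟨z, hz⟩ := htop w
  obtain ⟨p, hp1, hp2⟩ := hpoly z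
  have h1 : Polynomial.aeval k p w ∈ N' := ⟨_, hp2, hNp p _ hz⟩
  have h2 := aeval_stable k hN' p
  let T : N' →ₗ[ℂ] N' := (Polynomial.aeval k p).restrict h2
  have hT : Function.Injective T := by
    intro x y hxy
    exact Subtype.ext (hp1 (congrArg Subtype.val hxy))
  obtain ⟨w', hw'⟩ := (LinearMap.injective_iff_surjective.1 hT) ⟨_, h1⟩
  have h3 : Polynomial.aeval k p w'.1 = Polynomial.aeval k p w := congrArg Subtype.val hw'
  have h4 : w'.1 = w := hp1 h3
  rw [← h4]
  exact w'.2

/-- the dimension -/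
theorem codim_bound (N : Submodule ℂ (V × W)) (G : Submodule ℂ V) (h : ∀ w, ∃ z ∈ G, (z, w) ∈ N)
    (W₀ : Submodule ℂ W) (hW₀ : ∀ w, ((0 : V), w) ∈ N → w ∈ W₀) : finrank ℂ W ≤ finrank ℂ W₀ + finrank ℂ G := by
  let NT : Submodule ℂ (V × W) := N ⊓ G.prod ⊤
  let f : NT →ₗ[ℂ] W :=
    { toFun := fun p => p.1.2
      map_add' := fun _ _ => rfl
      map_smul' := fun _ _ => rfl }
  have hf : Function.Surjective f := by
    intro w
    obtain ⟨z, hz, hzw⟩ := h w
    exact ⟨⟨(z, w), hzw, hz, Submodule.mem_top⟩, rfl⟩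
  have h1 := LinearMap.finrank_le_finrank_of_surjective hf
  let g : NT →ₗ[ℂ] G :=
    { toFun := fun p => ⟨p.1.1, p.2.2.1⟩
      map_add' := fun _ _ => rfl
      map_smul' := fun _ _ => rfl }
  have h2 := LinearMap.finrank_range_add_finrank_ker g
  have h3 : finrank ℂ (LinearMap.range g) ≤ finrank ℂ G := Submodule.finrank_le _
  have hker : ∀ p : LinearMap.ker g, p.1.1.1 = 0 := fun p => congrArg Subtype.val (LinearMap.mem_ker.1 p.2)
  let k : LinearMap.ker g →ₗ[ℂ] W₀ :=
    { toFun := fun p => ⟨p.1.1.2, hW₀ _ (by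
        have h5 : (p.1.1.1, p.1.1.2) ∈ N := p.1.2.1
        rw [hker p] at h5
        exact h5)⟩
      map_add' := fun _ _ => rfl
      map_smul' := fun _ _ => rfl }
  have hk : Function.Injective k := by
    intro p q hpq
    apply Subtype.ext
    apply Subtype.ext
    refine Prod.ext ?_ (congrArg Subtype.val hpq)
    rw [hker p, hker q]
  have h4 := LinearMap.finrank_le_finrank_of_injective hk
  omega

end lifts

section sel

variable {R ι : Type} [Fintype R] [DecidableEq R] [Fintype ι] [DecidableEq ι]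

/-- the vectors supported in `E` -/
def Sp (E : Finset R) : Submodule ℂ (R → ι → ℂ) where
  carrier := {y | ∀ r, r ∉ E → y r = 0}
  zero_mem' := fun _ _ => rfl
  add_mem' := by
    intro y y' h h' r hr
    rw [Pi.add_apply, h r hr, h' r hr, add_zero]
  smul_mem' := by
    intro a y h r hr
    rw [Pi.smul_apply, h r hr, smul_zero]

/-- the choice of the exceptional indices -/
theorem select (W : Submodule ℂ (R → ι → ℂ)) (n : ℕ)
    (hstep : ∀ E : Finset R, W ⊔ Sp E ≠ ⊤ → ∃ j, finrank ℂ (W ⊔ Sp E : Submodule ℂ (R → ι → ℂ)) + n ≤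
      finrank ℂ (W ⊔ Sp (insert j E) : Submodule ℂ (R → ι → ℂ)) ∧
      finrank ℂ (W ⊔ Sp E : Submodule ℂ (R → ι → ℂ)) < finrank ℂ (W ⊔ Sp (insert j E) : Submodule ℂ (R → ι → ℂ))) :
    ∃ E : Finset R, W ⊔ Sp E = ⊤ ∧ finrank ℂ W + n * E.card ≤ finrank ℂ (R → ι → ℂ) := by
  classical
  by_contra hcon
  push Not at hcon
  have key : ∀ k : ℕ, ∃ E : Finset R, finrank ℂ W + n * E.card ≤ finrank ℂ (W ⊔ Sp E : Submodule ℂ (R → ι → ℂ)) ∧
      k ≤ finrank ℂ (W ⊔ Sp E : Submodule ℂ (R → ι → ℂ)) := by
    intro k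
    induction k with
    | zero =>
      refine ⟨∅, ?_, Nat.zero_le _⟩
      rw [Finset.card_empty, mul_zero, add_zero]
      exact Submodule.finrank_mono le_sup_left
    | succ k ih =>
      obtain ⟨E, h1, h2⟩ := ih
      have h3 : W ⊔ Sp E ≠ ⊤ := by
        intro h4
        have h5 := hcon E h4
        have h6 : finrank ℂ (W ⊔ Sp E : Submodule ℂ (R → ι → ℂ)) = finrank ℂ (R → ι → ℂ) := by
          rw [h4, finrank_top]
        omega
      obtain ⟨j, h4, h5⟩ := hstep E h3
      refine ⟨insert j E, ?_, by omega⟩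
      have h6 := Finset.card_insert_le j E
      have h7 : n * (insert j E).card ≤ n * E.card + n := by
        calc n * (insert j E).card ≤ n * (E.card + 1) := Nat.mul_le_mul_left _ h6
          _ = n * E.card + n := by ring
      omega
  obtain ⟨E, -, h2⟩ := key (finrank ℂ (R → ι → ℂ) + 1)
  have h3 := Submodule.finrank_le (W ⊔ Sp E : Submodule ℂ (R → ι → ℂ))
  omega

end sel

end Pool.Agent.KS6_11.G
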