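import Pool.Agent.KS6_11.G.CapA
import Pool.Agent.KS6_11.G.CapB

/-!
# The capacity of an arbitrary object for the points of an abelian variety
-/

set_option autoImplicit false
set_option linter.unusedVariables false
set_option linter.unusedSectionVars false
set_option linter.unusedSimpArgs false

open Matrix Module

noncomputable section

namespace Pool.Agent.KS6_11.G

open Pool.Agent.TH128.OM (adL adL_apply)
open Pool.Agent.W516.DR Pool.Agent.W245.EB Pool.Agent.Y102 Pool.Agent.W516.KC Pool.Agent.W516.KC2 Pool.Agent.H204R3.GP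
open Pool.Agent.TH127.PT Pool.Agent.TH119.DR Pool.Agent.Y123.ST
open Pool.Agent.X306.EM (QB_iff QQ mem_QQ)
open Pool.Agent.X306.MT
open Pool.Agent.X306.CV
open Pool.Agent.X306.AV (GT LT cb cmp cb_cmp cb_add cb_smul cb_zero row_mul Good pers PA PA_inv inv_PA UU eqv ratc mt dQ
  X0_eq hh lam per_eq lam_per uA mem_uA mem_of_comp Fld Pt Lt exists_den per_int lt_stable comp_mt exists_maps mem_hh
  tl tl_apply)

variable {g : ℕ} {A : AbVar g}

/-- the rank of an endomorphism -/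
theorem rank_ge {a : Module.End ℚ (Fin (2 * g) → ℚ)} (ha : a ≠ 0) {Mm : (Fin g → ℂ) →ₗ[ℂ] (Fin g → ℂ)}
    (hM : ∀ w, Mm (A.per w) = A.per (a w)) {h : ℕ}
    (hh : ∀ Q : (Fin g → ℂ) →ₗ[ℂ] (Fin g → ℂ), (∀ w ∈ Lt A, Q w ∈ Lt A) → Q ≠ 0 →
      h ≤ finrank ℂ (LinearMap.range Q)) :
    2 * h ≤ finrank ℂ (LinearMap.range (mt a).vecMulLinear) := by
  classical
  obtain ⟨d, hd0, hd⟩ := exists_den (fun p : Fin (2 * g) × Fin (2 * g) => a (Pi.single p.1 1) p.2)
  have hdC : (d : ℂ) ≠ 0 := Nat.cast_ne_zero.2 hd0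
  have hst : ∀ w ∈ Lt A, ((d : ℂ) • Mm) w ∈ Lt A := lt_stable fun j => by
    rw [LinearMap.smul_apply, ← lam_per, hM]
    have h1 : (d : ℂ) • A.per (a (Pi.single j 1)) = A.per (fun i => (d : ℚ) * a (Pi.single j 1) i) := by
      rw [per_eq, per_eq, Finset.smul_sum]
      refine Finset.sum_congr rfl fun i _ => ?_
      rw [smul_smul, Rat.cast_mul, Rat.cast_natCast]
    rw [h1]
    exact per_int fun i => hd (j, i)
  have hne : (d : ℂ) • Mm ≠ 0 := by
    intro h0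
    apply ha
    refine LinearMap.ext fun w => A.per_inj ?_
    have h1 := congrArg (fun F : (Fin g → ℂ) →ₗ[ℂ] (Fin g → ℂ) => F (A.per w)) h0
    change (d : ℂ) • Mm (A.per w) = 0 at h1
    rw [hM, smul_eq_zero] at h1
    rw [h1.resolve_left hdC]
    exact (map_zero A.per).symm
  have h1 := hh _ hst hne
  have h2 : LinearMap.range ((d : ℂ) • Mm) ≤ LinearMap.range Mm := by
    rintro _ ⟨x, rfl⟩
    exact ⟨(d : ℂ) • x, by rw [map_smul, LinearMap.smul_apply]⟩
  have h3 : h ≤ finrank ℂ (LinearMap.range Mm) := h1.trans (Submodule.finrank_mono h2)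
  have h4 : 2 * finrank ℂ (LinearMap.range Mm) = finrank ℝ (LinearMap.range Mm) := by
    have h5 := Module.finrank_mul_finrank ℝ ℂ (LinearMap.range Mm)
    rwa [Complex.finrank_real_complex] at h5
  have : Module.Finite ℝ (LinearMap.range Mm) := Module.Finite.trans ℂ _
  let b := Module.finBasis ℝ (LinearMap.range Mm)
  have hx : ∀ i, ∃ x, Mm x = (b i).1 := fun i => (b i).2
  choose x hx using hx
  let r : Fin (finrank ℝ (LinearMap.range Mm)) → Fin (2 * g) → ℝ := fun i => A.lam.repr (x i)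
  have hr : ∀ i, pR A (r i) = x i := fun i => A.lam.sum_repr (x i)
  let s : Fin (finrank ℝ (LinearMap.range Mm)) → Fin (2 * g) → ℝ := fun i k =>
    ∑ j, r i j * ((a (Pi.single j 1) k : ℚ) : ℝ)
  have hs : ∀ i, pR A (s i) = (b i).1 := by
    intro i
    rw [← hx i, ← hr i, M_pR hM]
  have hli : LinearIndependent ℝ s := by
    rw [Fintype.linearIndependent_iff]
    intro c hc
    have h5 : ∑ i, c i • b i = 0 := by
      apply Subtype.ext
      rw [Submodule.coe_sum]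
      have h6 : pR A (∑ i, c i • s i) = ∑ i, c i • pR A (s i) := by
        unfold pR
        simp only [Finset.sum_apply, Pi.smul_apply, smul_eq_mul, Finset.sum_smul, Finset.smul_sum, smul_smul]
        rw [Finset.sum_comm]
      have h7 : pR A (∑ i, c i • s i) = 0 := by
        rw [hc]
        unfold pR
        simp
      rw [h6] at h7
      simp only [hs] at h7
      exact h7
    exact Fintype.linearIndependent_iff.1 b.linearIndependent c h5
  let s' : Fin (finrank ℝ (LinearMap.range Mm)) → LinearMap.range (mt a).vecMulLinear := fun i =>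
    ⟨fun k => (s i k : ℂ), ⟨fun j => (r i j : ℂ), by
      funext k
      rw [Matrix.vecMulLinear_apply]
      change ∑ j, (r i j : ℂ) * ((a (Pi.single j 1) k : ℚ) : ℂ) = ((∑ j, r i j * ((a (Pi.single j 1) k : ℚ) : ℝ) : ℝ) : ℂ)
      rw [Complex.ofReal_sum]
      refine Finset.sum_congr rfl fun j _ => ?_
      rw [Complex.ofReal_mul]
      congr 1⟩⟩
  have hli' : LinearIndependent ℂ s' := by
    rw [Fintype.linearIndependent_iff]
    intro c hc
    have h5 : ∀ k, ∑ i, c i * (s i k : ℂ) = 0 := by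
      intro k
      have h6 := congrFun (congrArg Subtype.val hc) k
      rw [Submodule.coe_sum, Finset.sum_apply] at h6
      exact h6
    have hre : ∀ i, (c i).re = 0 := by
      refine Fintype.linearIndependent_iff.1 hli (fun i => (c i).re) ?_
      funext k
      rw [Finset.sum_apply]
      have h6 := congrArg Complex.re (h5 k)
      rw [Complex.re_sum, Complex.zero_re] at h6
      rw [Pi.zero_apply, ← h6]
      refine Finset.sum_congr rfl fun i _ => ?_
      rw [Complex.re_mul_ofReal]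
      rfl
    have him : ∀ i, (c i).im = 0 := by
      refine Fintype.linearIndependent_iff.1 hli (fun i => (c i).im) ?_
      funext k
      rw [Finset.sum_apply]
      have h6 := congrArg Complex.im (h5 k)
      rw [Complex.im_sum, Complex.zero_im] at h6
      rw [Pi.zero_apply, ← h6]
      refine Finset.sum_congr rfl fun i _ => ?_
      rw [Complex.im_mul_ofReal]
      rfl
    exact fun i => Complex.ext (hre i) (him i)
  have h5 := hli'.fintype_card_le_finrank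
  rw [Fintype.card_fin] at h5
  omega

section fin

variable {R : Type} [Fintype R] [DecidableEq R]

theorem mem_of_comp' (W : Submodule ℂ (R → Fin (2 * g) → ℂ)) {y : R → Fin (2 * g) → ℂ}
    (h : ∀ f : ℂ →ₗ[ℚ] ℚ, (fun r j => ((f (y r j) : ℚ) : ℂ)) ∈ W) : y ∈ W := by
  let φ : (R × Fin (2 * g) → ℂ) →ₗ[ℂ] (R → Fin (2 * g) → ℂ) :=
    { toFun := fun y r j => y (r, j)
      map_add' := fun _ _ => rfl
      map_smul' := fun _ _ => rfl }
  exact mem_of_comp (W.comap φ) (w := fun p => y p.1 p.2) h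

variable {u e : R → Fin g → ℂ} {l : Empty → ℂ} {𝔤 : Submodule ℚ (GT (Fin (2 * g)) R Empty)}

theorem Sp_mono {ι : Type} [Fintype ι] {E E' : Finset R} (h : E ⊆ E') : Sp (ι := ι) E ≤ Sp E' :=
  fun y hy r hr => hy r fun h' => hr (h h')

/-- one step of the selection -/
theorem step (G : Good A u e l 𝔤) {h : ℕ}
    (hh' : ∀ Q : (Fin g → ℂ) →ₗ[ℂ] (Fin g → ℂ), (∀ w ∈ Lt A, Q w ∈ Lt A) → Q ≠ 0 →
      h ≤ finrank ℂ (LinearMap.range Q)) (W : Submodule ℂ (R → Fin (2 * g) → ℂ))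
    (hmap : ∀ f : ℂ →ₗ[QQ] ℂ, ∀ y ∈ W, (fun r j => f (y r j)) ∈ W)
    (hst : ∀ ξ ∈ 𝔤, ∀ y ∈ W, (fun r => y r ᵥ* (cb ξ).1) ∈ W) (E : Finset R) (hne : W ⊔ Sp E ≠ ⊤) :
    ∃ j, finrank ℂ (W ⊔ Sp E : Submodule ℂ (R → Fin (2 * g) → ℂ)) + 2 * h ≤
      finrank ℂ (W ⊔ Sp (insert j E) : Submodule ℂ (R → Fin (2 * g) → ℂ)) ∧
      finrank ℂ (W ⊔ Sp E : Submodule ℂ (R → Fin (2 * g) → ℂ)) <
        finrank ℂ (W ⊔ Sp (insert j E) : Submodule ℂ (R → Fin (2 * g) → ℂ)) := by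
  have hmap' : ∀ f : ℂ →ₗ[QQ] ℂ, ∀ y ∈ W ⊔ Sp E, (fun r j => f (y r j)) ∈ W ⊔ Sp E := by
    intro f y hy
    obtain ⟨w, hw, s, hs, rfl⟩ := Submodule.mem_sup.1 hy
    refine Submodule.mem_sup.2 ⟨_, hmap f w hw, fun r j => f (s r j), fun r hr => ?_, ?_⟩
    · funext j
      change f (s r j) = 0
      rw [hs r hr]
      exact map_zero f
    · funext r j
      exact (map_add f _ _).symm
  have hst' : ∀ ξ ∈ 𝔤, ∀ y ∈ W ⊔ Sp E, (fun r => y r ᵥ* (cb ξ).1) ∈ W ⊔ Sp E := by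
    intro ξ hξ y hy
    obtain ⟨w, hw, s, hs, rfl⟩ := Submodule.mem_sup.1 hy
    refine Submodule.mem_sup.2 ⟨_, hst ξ hξ w hw, fun r => s r ᵥ* (cb ξ).1, fun r hr => ?_, ?_⟩
    · change s r ᵥ* (cb ξ).1 = 0
      rw [hs r hr, Matrix.zero_vecMul]
    · funext r
      exact (Matrix.add_vecMul _ _ _).symm
  let U : Submodule ℚ (R → Fin (2 * g) → ℚ) :=
    { carrier := {Y | (fun r j => ((Y r j : ℚ) : ℂ)) ∈ W ⊔ Sp E}
      zero_mem' := by
        refine (congrArg (· ∈ W ⊔ Sp E) ?_).mp (Submodule.zero_mem _)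
        funext r j
        exact Rat.cast_zero.symm
      add_mem' := by
        intro Y Y' hY hY'
        refine (congrArg (· ∈ W ⊔ Sp E) ?_).mp (Submodule.add_mem _ hY hY')
        funext r j
        exact (Rat.cast_add _ _).symm
      smul_mem' := by
        intro q Y hY
        refine (congrArg (· ∈ W ⊔ Sp E) ?_).mp (Submodule.smul_mem _ (q : ℂ) hY)
        funext r j
        exact (Rat.cast_mul _ _).symm }
  have hUst : ∀ X ∈ hh 𝔤, ∀ Y ∈ U, (fun r => X (Y r)) ∈ U := by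
    intro X hX Y hY
    obtain ⟨ξ, hξ, rfl⟩ := mem_hh.1 hX
    have h1 := hst' ξ hξ _ hY
    have h2 := Submodule.smul_mem (W ⊔ Sp E) (((ξ.2.2.1 / 2 : ℚ)) : ℂ)
      (show (fun r j => ((Y r j : ℚ) : ℂ)) ∈ W ⊔ Sp E from hY)
    refine (congrArg (· ∈ W ⊔ Sp E) ?_).mp (Submodule.sub_mem _ h1 h2)
    funext r j
    rw [tl_apply]
    change ∑ i, ((Y r i : ℚ) : ℂ) * ((ξ.1 (Pi.single i 1) j : ℚ) : ℂ) - ((ξ.2.2.1 / 2 : ℚ) : ℂ) * ((Y r j : ℚ) : ℂ) =
      ((ξ.1 (Y r) j - (ξ.2.2.1 / 2) * Y r j : ℚ) : ℂ)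
    rw [Rat.cast_sub, row_mul ξ.1, Rat.cast_mul]
  obtain ⟨a, ha, hmem⟩ := exists_maps (hh 𝔤) G.semi U hUst
  have hex : ∃ s r, a r s ≠ 0 := by
    by_contra hcon
    push Not at hcon
    apply hne
    rw [eq_top_iff]
    intro y _
    refine mem_of_comp' _ fun f => ?_
    change (fun r j => f (y r j)) ∈ U
    rw [hmem]
    intro s
    exact Finset.sum_eq_zero fun r _ => by rw [hcon s r, LinearMap.zero_apply]
  obtain ⟨s, r₀, har⟩ := hex
  let Φ : (R → Fin (2 * g) → ℂ) →ₗ[ℂ] (Fin (2 * g) → ℂ) :=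
    { toFun := fun y => ∑ r, y r ᵥ* mt (a r s)
      map_add' := by
        intro y y'
        rw [← Finset.sum_add_distrib]
        exact Finset.sum_congr rfl fun r _ => Matrix.add_vecMul _ (y r) (y' r)
      map_smul' := by
        intro c y
        rw [RingHom.id_apply, Finset.smul_sum]
        exact Finset.sum_congr rfl fun r _ => Matrix.smul_vecMul c (y r) _ }
  have hΦ : ∀ y ∈ W ⊔ Sp E, Φ y = 0 := by
    intro y hy
    funext j
    refine Pool.Agent.W516.DR.eq_zero_of_dual (k := ℚ) fun f => ?_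
    change f ((∑ r, y r ᵥ* mt (a r s)) j) = 0
    rw [Finset.sum_apply, map_sum]
    have h1 : (fun r i => f (y r i)) ∈ U := hmap' (ratc f) y hy
    have h2 := congrFun ((hmem _).1 h1 s) j
    rw [Finset.sum_apply] at h2
    refine Eq.trans ?_ h2
    exact Finset.sum_congr rfl fun r _ => comp_mt f (a r s) (y r) j
  obtain ⟨Mm, hM⟩ := G.hodge (P := a r₀ s) (fun X hX => ha r₀ s X hX)
  have h1 := rank_ge har hM hh'
  have h1' := rank_ge har hM (h := 1) (fun Q _ hQ => by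
    rw [Nat.one_le_iff_ne_zero]
    intro h0
    apply hQ
    rw [← LinearMap.range_eq_bot]
    exact Submodule.finrank_eq_zero.1 h0)
  have hle : W ⊔ Sp E ≤ W ⊔ Sp (insert r₀ E) := sup_le_sup_left (Sp_mono (Finset.subset_insert _ _)) _
  let Ψ := Φ.domRestrict (W ⊔ Sp (insert r₀ E) : Submodule ℂ (R → Fin (2 * g) → ℂ))
  have h2 := LinearMap.finrank_range_add_finrank_ker Ψ
  have h3 : finrank ℂ (LinearMap.range (mt (a r₀ s)).vecMulLinear) ≤ finrank ℂ (LinearMap.range Ψ) := by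
    refine Submodule.finrank_mono ?_
    rintro _ ⟨v, rfl⟩
    have h4 : (Pi.single r₀ v : R → Fin (2 * g) → ℂ) ∈ W ⊔ Sp (insert r₀ E) := by
      refine Submodule.mem_sup_right fun r hr => ?_
      refine Pi.single_eq_of_ne ?_ _
      rintro rfl
      exact hr (Finset.mem_insert_self _ _)
    refine ⟨⟨_, h4⟩, ?_⟩
    change ∑ r, (Pi.single r₀ v : R → Fin (2 * g) → ℂ) r ᵥ* mt (a r s) = _
    rw [Finset.sum_eq_single r₀]
    · rw [Pi.single_eq_same]
      rfl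
    · intro r _ hr
      rw [Pi.single_eq_of_ne hr, Matrix.zero_vecMul]
    · intro h
      exact absurd (Finset.mem_univ _) h
  let k : (W ⊔ Sp E : Submodule ℂ (R → Fin (2 * g) → ℂ)) →ₗ[ℂ] LinearMap.ker Ψ :=
    { toFun := fun y => ⟨⟨y.1, hle y.2⟩, LinearMap.mem_ker.2 (hΦ y.1 y.2)⟩
      map_add' := fun _ _ => rfl
      map_smul' := fun _ _ => rfl }
  have hk : Function.Injective k := by
    intro x y hxy
    exact Subtype.ext (congrArg (fun z : LinearMap.ker Ψ => z.1.1) hxy)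
  have h4 := LinearMap.finrank_le_finrank_of_injective hk
  exact ⟨r₀, by omega, by omega⟩

variable {M : Type} [Fintype M] [DecidableEq M]

/-- the elements without other components -/
def Wz (Λ : Submodule ℂ (T3 M g R)) : Submodule ℂ (R → Fin (2 * g) → ℂ) :=
  Λ.comap (LinearMap.inr ℂ _ _ ∘ₗ LinearMap.inr ℂ _ _)

theorem mem_Wz {Λ : Submodule ℂ (T3 M g R)} {y : R → Fin (2 * g) → ℂ} :
    y ∈ Wz Λ ↔ ((0, 0, y) : T3 M g R) ∈ Λ := Iff.rfl

variable {C₀ : Matrix M M ℂ} {Λ : Submodule ℂ (T3 M g R)}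

theorem Cl.Wz_map (H : Cl A C₀ u e Λ) (f : ℂ →ₗ[QQ] ℂ) (y : R → Fin (2 * g) → ℂ) (hy : y ∈ Wz Λ) :
    (fun r j => f (y r j)) ∈ Wz Λ := by
  have h1 := H.map f (mem_Wz.1 hy)
  refine (congrArg (· ∈ Λ) ?_).mp h1
  refine Prod.ext ?_ (Prod.ext ?_ rfl)
  · ext i j
    exact map_zero f
  · ext i j
    exact map_zero f

theorem Cl.Wz_act (H : Cl A C₀ u e Λ) {z : Matrix M M ℂ} {X : Matrix (Fin (2 * g)) (Fin (2 * g)) ℂ}
    {y' : R → Fin (2 * g) → ℂ} (h : (z, X, y') ∈ Λ) (y : R → Fin (2 * g) → ℂ) (hy : y ∈ Wz Λ) :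
    (fun r => y r ᵥ* X) ∈ Wz Λ := by
  have h1 := H.br (mem_Wz.1 hy) h
  refine (congrArg (· ∈ Λ) ?_).mp h1
  refine Prod.ext ?_ (Prod.ext ?_ ?_)
  · change (0 : Matrix M M ℂ) * z - z * 0 = 0
    rw [Matrix.zero_mul, Matrix.mul_zero, sub_zero]
  · change (0 : Matrix (Fin (2 * g)) (Fin (2 * g)) ℂ) * X - X * 0 = 0
    rw [Matrix.zero_mul, Matrix.mul_zero, sub_zero]
  · funext r
    change y r ᵥ* X - y' r ᵥ* 0 = y r ᵥ* X
    rw [Matrix.vecMul_zero, sub_zero]

variable {F : IntermediateField ℚ ℂ}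

/-- the codimension -/
theorem Cl.codim (H : Cl A C₀ u e Λ) (hF : Fld A F) (hu : ∀ r, u r ∈ Pt A F)
    (hind : ∀ (Q : R → (Fin g → ℂ) →ₗ[ℂ] (Fin g → ℂ)), (∀ r, ∀ w ∈ Lt A, Q r w ∈ Lt A) →
      ∑ r, Q r (u r) ∈ Lt A → ∀ r, Q r = 0) :
    4 * finrank ℂ (R → Fin (2 * g) → ℂ) ≤ 4 * finrank ℂ (Wz Λ) + Fintype.card M ^ 2 := by
  obtain ⟨z₁, X₁, y₁, h1, h, hh0, heig⟩ := H.exists_e
  let N : Submodule ℂ (Matrix M M ℂ × (R → Fin (2 * g) → ℂ)) :=
    { carrier := {p | ((p.1, 0, p.2) : T3 M g R) ∈ Λ}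
      zero_mem' := Λ.zero_mem
      add_mem' := by
        intro p p' hp hp'
        refine (congrArg (· ∈ Λ) ?_).mp (Λ.add_mem hp hp')
        exact Prod.ext rfl (Prod.ext (add_zero _) rfl)
      smul_mem' := by
        intro a p hp
        refine (congrArg (· ∈ Λ) ?_).mp (Λ.smul_mem a hp)
        exact Prod.ext rfl (Prod.ext (smul_zero _) rfl) }
  let k : Module.End ℂ (R → Fin (2 * g) → ℂ) :=
    { toFun := fun y r => -(y r ᵥ* X₁)
      map_add' := by
        intro y y'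
        funext r
        change -((y r + y' r) ᵥ* X₁) = -(y r ᵥ* X₁) + -(y' r ᵥ* X₁)
        rw [Matrix.add_vecMul, neg_add]
      map_smul' := by
        intro c y
        funext r
        change -((c • y r) ᵥ* X₁) = c • -(y r ᵥ* X₁)
        rw [Matrix.smul_vecMul, smul_neg] }
  have hlift := lift_part N (adL z₁ : Module.End ℂ (Matrix M M ℂ)) k (-h) (by
    intro p hp
    have h2 := H.br h1 hp
    refine (congrArg (· ∈ Λ) ?_).mp h2
    refine Prod.ext rfl (Prod.ext ?_ ?_)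
    · change X₁ * (0 : Matrix (Fin (2 * g)) (Fin (2 * g)) ℂ) - 0 * X₁ = 0
      rw [Matrix.zero_mul, Matrix.mul_zero, sub_zero]
    · funext r
      change y₁ r ᵥ* 0 - p.2 r ᵥ* X₁ = -(p.2 r ᵥ* X₁)
      rw [Matrix.vecMul_zero, zero_sub]) (by
    intro t ht w hw
    funext r
    refine heig (-t) (fun h2 => ht ?_) (w r) ?_
    · rw [← h2, Complex.neg_re, neg_neg]
    · have h2 := congrFun hw r
      change -(w r ᵥ* X₁) = t • w r at h2
      rw [neg_smul, ← h2, neg_neg]) (fun y => H.exists_z hF hu hind y)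
  have h2 := codim_bound N (Gre (adL z₁ : Module.End ℂ (Matrix M M ℂ)) (-h)) hlift (Wz Λ) (fun w hw => hw)
  have h3 := gen_bound' z₁ (h := -h) (neg_ne_zero.2 hh0)
  omega

end fin

variable {M : Type} [Fintype M] [DecidableEq M] {J : Type} [DecidableEq J]

/-- **The capacity of an arbitrary object.** -/
theorem capA (C₀ : Matrix M M ℂ) (u e : J → Fin g → ℂ)
    (hu : ∀ K : Finset J, ∃ F : IntermediateField ℚ ℂ, Fld A F ∧ ∀ j ∈ K, u j ∈ Pt A F)
    (hind : ∀ (K : Finset J) (Q : K → (Fin g → ℂ) →ₗ[ℂ] (Fin g → ℂ)), (∀ r, ∀ w ∈ Lt A, Q r w ∈ Lt A) →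
      ∑ r : K, Q r (u r) ∈ Lt A → ∀ r, Q r = 0) {h : ℕ}
    (hh' : ∀ Q : (Fin g → ℂ) →ₗ[ℂ] (Fin g → ℂ), (∀ w ∈ Lt A, Q w ∈ Lt A) → Q ≠ 0 →
      h ≤ finrank ℂ (LinearMap.range Q)) :
    ∃ E : Finset J, 8 * h * E.card ≤ Fintype.card M ^ 2 ∧ ∀ K : Finset J, Disjoint K E →
      ∀ y : K → Fin (2 * g) → ℂ,
        ((0, 0, y) : T3 M g K) ∈ Lmin A C₀ (fun k : K => u k.1) (fun k : K => e k.1) := by
  classical
  let L : ∀ K : Finset J, Submodule ℂ (T3 M g K) := fun K => Lmin A C₀ (fun k : K => u k.1) (fun k : K => e k.1)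
  let W : ∀ K : Finset J, Submodule ℂ (K → Fin (2 * g) → ℂ) := fun K => Wz (L K)
  have hcl : ∀ K : Finset J, Cl A C₀ (fun k : K => u k.1) (fun k : K => e k.1) (L K) := fun K => cl_Lmin
  have hcod : ∀ K : Finset J, 4 * finrank ℂ (K → Fin (2 * g) → ℂ) ≤ 4 * finrank ℂ (W K) + Fintype.card M ^ 2 := by
    intro K
    obtain ⟨F, hF, hK⟩ := hu K
    exact (hcl K).codim hF (fun r => hK r.1 r.2) (hind K)
  have hWle : ∀ K : Finset J, finrank ℂ (W K) ≤ finrank ℂ (K → Fin (2 * g) → ℂ) := fun K => Submodule.finrank_le _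
  -- a maximal finite subset
  obtain ⟨K₀, hK₀⟩ : ∃ K₀ : Finset J, ∀ K : Finset J, finrank ℂ (K → Fin (2 * g) → ℂ) - finrank ℂ (W K) ≤
      finrank ℂ (K₀ → Fin (2 * g) → ℂ) - finrank ℂ (W K₀) := by
    let S : Set ℕ := {n | ∃ K : Finset J, n = finrank ℂ (K → Fin (2 * g) → ℂ) - finrank ℂ (W K)}
    have hS : S.Nonempty := ⟨_, ∅, rfl⟩
    have hb : BddAbove S := by
      refine ⟨Fintype.card M ^ 2, ?_⟩
      rintro _ ⟨K, rfl⟩
      have := hcod K
      omega
    obtain ⟨K₀, h0⟩ := Nat.sSup_mem hS hb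
    refine ⟨K₀, fun K => ?_⟩
    rw [← h0]
    exact le_csSup hb ⟨K, rfl⟩
  have hgood : Good A (fun k : K₀ => u k.1) (fun k : K₀ => e k.1) (fun j : Empty => j.elim) (gL A (L K₀)) :=
    (hcl K₀).good _
  obtain ⟨E₀, hE1, hE2⟩ := select (W K₀) (2 * h) (step hgood hh' (W K₀) (fun f y hy => (hcl K₀).Wz_map f y hy)
    (fun ξ hξ y hy => by
      obtain ⟨_, z, h1⟩ := hξ
      exact (hcl K₀).Wz_act h1 y hy))
  refine ⟨E₀.map (Function.Embedding.subtype _), ?_, ?_⟩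
  · rw [Finset.card_map]
    have h1 := hcod K₀
    have h2 : 8 * h * E₀.card = 4 * (2 * h * E₀.card) := by ring
    omega
  · intro K hK y
    change y ∈ W K
    -- the union
    have hsub : ∀ k : K, k.1 ∈ K ∪ K₀ := fun k => Finset.mem_union_left _ k.2
    have hsub₀ : ∀ k : K₀, k.1 ∈ K ∪ K₀ := fun k => Finset.mem_union_right _ k.2
    let ρ : (↥(K ∪ K₀) → Fin (2 * g) → ℂ) →ₗ[ℂ] (K → Fin (2 * g) → ℂ) :=
      { toFun := fun y k => y ⟨k.1, hsub k⟩
        map_add' := fun _ _ => rfl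
        map_smul' := fun _ _ => rfl }
    let ρ₀ : (↥(K ∪ K₀) → Fin (2 * g) → ℂ) →ₗ[ℂ] (K₀ → Fin (2 * g) → ℂ) :=
      { toFun := fun y k => y ⟨k.1, hsub₀ k⟩
        map_add' := fun _ _ => rfl
        map_smul' := fun _ _ => rfl }
    have h1 : W (K ∪ K₀) ≤ (W K).comap ρ := fun y hy =>
      Lmin_rest (R := ↥(K ∪ K₀)) (R' := K) (fun k : K => ⟨k.1, hsub k⟩) hy
    have h2 : W (K ∪ K₀) ≤ (W K₀).comap ρ₀ := fun y hy =>
      Lmin_rest (R := ↥(K ∪ K₀)) (R' := K₀) (fun k : K₀ => ⟨k.1, hsub₀ k⟩) hy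
    have hρ₀ : Function.Surjective ρ₀ := by
      intro y
      refine ⟨fun k => if hk : k.1 ∈ K₀ then y ⟨k.1, hk⟩ else 0, ?_⟩
      funext k
      exact dif_pos k.2
    have h3 : finrank ℂ ((W K₀).comap ρ₀) + finrank ℂ (K₀ → Fin (2 * g) → ℂ) ≤
        finrank ℂ (W K₀) + finrank ℂ (↥(K ∪ K₀) → Fin (2 * g) → ℂ) := by
      have e1 := LinearMap.finrank_range_add_finrank_ker ρ₀
      rw [LinearMap.range_eq_top.2 hρ₀, finrank_top] at e1
      let σ : (W K₀).comap ρ₀ →ₗ[ℂ] W K₀ := ρ₀.restrict (fun y hy => hy)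
      have e2 := LinearMap.finrank_range_add_finrank_ker σ
      have e3 : finrank ℂ (LinearMap.range σ) ≤ finrank ℂ (W K₀) := Submodule.finrank_le _
      let τ : LinearMap.ker σ →ₗ[ℂ] LinearMap.ker ρ₀ :=
        { toFun := fun y => ⟨y.1.1, LinearMap.mem_ker.2 (congrArg Subtype.val (LinearMap.mem_ker.1 y.2))⟩
          map_add' := fun _ _ => rfl
          map_smul' := fun _ _ => rfl }
      have hτ : Function.Injective τ := by
        intro x y hxy
        exact Subtype.ext (Subtype.ext (congrArg (fun z : LinearMap.ker ρ₀ => z.1) hxy))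
      have e4 := LinearMap.finrank_le_finrank_of_injective hτ
      omega
    have h4 : W (K ∪ K₀) = (W K₀).comap ρ₀ := by
      refine Submodule.eq_of_le_of_finrank_le h2 ?_
      have e1 := hK₀ (K ∪ K₀)
      have e2 := hWle K₀
      have e3 := hWle (K ∪ K₀)
      omega
    -- the decomposition
    let y₁ : ↥(K ∪ K₀) → Fin (2 * g) → ℂ := fun k => if hk : k.1 ∈ K then y ⟨k.1, hk⟩ else 0
    have hy₁ : ρ y₁ = y := by
      funext k
      exact dif_pos k.2
    have h5 : ρ₀ y₁ ∈ W K₀ ⊔ Sp E₀ := by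
      rw [hE1]
      exact Submodule.mem_top
    obtain ⟨w, hw, s, hs, hws⟩ := Submodule.mem_sup.1 h5
    let s₁ : ↥(K ∪ K₀) → Fin (2 * g) → ℂ := fun k => if hk : k.1 ∈ K₀ then s ⟨k.1, hk⟩ else 0
    have hs₁ : ρ₀ s₁ = s := by
      funext k
      exact dif_pos k.2
    have hs₂ : ρ s₁ = 0 := by
      funext k
      change (if hk : k.1 ∈ K₀ then s ⟨k.1, hk⟩ else 0) = 0
      split_ifs with hk
      · refine hs _ fun h6 => ?_
        exact Finset.disjoint_left.1 hK k.2 (Finset.mem_map.2 ⟨_, h6, rfl⟩)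
      · rfl
    have h6 : y₁ - s₁ ∈ W (K ∪ K₀) := by
      rw [h4, Submodule.mem_comap, map_sub, hs₁, ← hws, add_sub_cancel_right]
      exact hw
    have h7 := h1 h6
    rw [Submodule.mem_comap, map_sub, hs₂, sub_zero, hy₁] at h7
    exact h7

end Pool.Agent.KS6_11.G
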