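import Pool.Agent.KS6_11.G.Adm
import Pool.Agent.KS6_11.G.CapC

set_option autoImplicit false
set_option linter.unusedVariables false
set_option linter.unusedSectionVars false
set_option linter.unusedSimpArgs false

/-!
# The logarithmic derivatives, with a component for an arbitrary object
-/

open Matrix Module

noncomputable section

namespace Pool.Agent.KS6_11.G

open Pool.Agent.W516.DR Pool.Agent.W245.EB Pool.Agent.Y102
open Pool.Agent.TH127.PT Pool.Agent.TH119.DR Pool.Agent.Y123.ST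
open Pool.Agent.X306.EM (QB_iff QQ mem_QQ)
open Pool.Agent.X306.RL (LL_br derD LL_defF GDef)
open Pool.Agent.X306.MT
open Pool.Agent.X306.MZ (InK)
open Pool.Agent.X306.CV
open Pool.Agent.X306.AV (PA PA_inv inv_PA dQ)

variable {M B R I : Type} [Fintype M] [DecidableEq M] [Fintype B] [DecidableEq B] [Fintype R] [DecidableEq R]
  [Fintype I] [DecidableEq I]
  {d : B → ℕ} {o : B} {N : I → Matrix B B ℂ} {C : Matrix B B ℂ} {NB : I → Matrix B B ℂ}
  {T : Set (Matrix (M ⊕ (B ⊕ (B × R))) (M ⊕ (B ⊕ (B × R))) ℂ)} {P P' : Matrix I I ℂ}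

/-- The shape of the period matrix of the fibre. -/
structure Fn (d : B → ℕ) (o : B) (N NB : I → Matrix B B ℂ) (C : Matrix B B ℂ) (P P' : Matrix I I ℂ) : Prop where
  u : IsUnit C
  low : C ∈ Ge d 0
  dgo : d o = 0
  uni : ∀ b, d b = 0 → b = o
  coo : C o o = 1
  hN : Deg1 d N
  hNB : Deg1 d NB
  alg : ∀ i, AlgM (N i)
  rat : ∀ i, InK QQ (NB i)
  lead : ∀ j, NB j * C - ∑ i, P j i • (C * N i) ∈ Ge d 2
  gen : ∀ b, b ≠ o → (Pi.single b 1 : B → ℂ) ∈ Submodule.span ℂ {v' | ∃ (v : B → ℂ) (i : I), v' = v ᵥ* NB i}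
  bet : DefK QQ C N
  PP : P' * P = 1
  PP' : P * P' = 1

namespace Fn

variable (H : Fn d o N NB C P P')
include H

theorem bi : Bi d C := Bi.of_low H.u H.low

theorem NB_eq (j : I) : NB j - ∑ i, P j i • (C * N i * C⁻¹) ∈ Ge d 2 := by
  have h1 := Ge_mul (H.lead j) H.bi.m'
  rw [add_zero] at h1
  refine (congrArg (· ∈ Ge d 2) ?_).mp h1
  rw [Matrix.sub_mul, Matrix.mul_assoc, H.bi.mul_inv, Matrix.mul_one, Finset.sum_mul]
  congr 1
  exact Finset.sum_congr rfl fun i _ => Matrix.smul_mul _ _ _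

theorem conjN (k : I) : C * N k * C⁻¹ - nbv NB (P' k) ∈ Ge d 2 := by
  have h1 : C * N k * C⁻¹ - nbv NB (P' k) = -∑ j, P' k j • (NB j - ∑ i, P j i • (C * N i * C⁻¹)) := by
    have h2 : C * N k * C⁻¹ = ∑ j, P' k j • ∑ i, P j i • (C * N i * C⁻¹) := by
      simp only [Finset.smul_sum, smul_smul]
      rw [Finset.sum_comm]
      have h3 : ∀ i, ∑ j, (P' k j * P j i) • (C * N i * C⁻¹) = (P' * P) k i • (C * N i * C⁻¹) := by
        intro i
        rw [← Finset.sum_smul]
        rfl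
      simp only [h3, H.PP]
      rw [Finset.sum_eq_single k]
      · rw [Matrix.one_apply_eq, one_smul]
      · intro i _ hi
        rw [Matrix.one_apply_ne (Ne.symm hi), zero_smul]
      · intro h
        exact absurd (Finset.mem_univ _) h
    simp only [smul_sub]
    rw [Finset.sum_sub_distrib, ← h2]
    unfold nbv
    abel
  rw [h1]
  exact (Ge d 2).neg_mem ((Ge d 2).sum_mem fun j _ => (Ge d 2).smul_mem _ (H.NB_eq j))

theorem conj_w (w : I → ℂ) : C * nbv N w * C⁻¹ - nbv NB (w ᵥ* P') ∈ Ge d 2 := by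
  have h1 : C * nbv N w * C⁻¹ - nbv NB (w ᵥ* P') = ∑ k, w k • (C * N k * C⁻¹ - nbv NB (P' k)) := by
    have h2 : nbv NB (w ᵥ* P') = ∑ k, w k • nbv NB (P' k) := by
      have h3 : w ᵥ* P' = ∑ j, w j • P' j := by
        funext i
        rw [Finset.sum_apply]
        rfl
      rw [h3]
      have h4 : ∀ s : Finset I, nbv NB (∑ j ∈ s, w j • P' j) = ∑ j ∈ s, w j • nbv NB (P' j) := by
        intro s
        induction s using Finset.induction_on with
        | empty => rw [Finset.sum_empty, Finset.sum_empty, nbv_zero]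
        | insert a s ha ih => rw [Finset.sum_insert ha, Finset.sum_insert ha, nbv_add, nbv_smul, ih]
      exact h4 _
    rw [h2]
    conv_lhs => rw [nbv]
    rw [Finset.mul_sum, Finset.sum_mul, ← Finset.sum_sub_distrib]
    refine Finset.sum_congr rfl fun j _ => ?_
    rw [Matrix.mul_smul, Matrix.smul_mul, smul_sub]
  rw [h1]
  exact (Ge d 2).sum_mem fun k _ => (Ge d 2).smul_mem _ (H.conjN k)

theorem der_com (D : Derivation QBar ℂ ℂ) (j : I) :
    (C.map D * C⁻¹) * NB j - NB j * (C.map D * C⁻¹) + nbv NB ((P.map D * P') j) ∈ Ge d 2 := by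
  set D' : Derivation ℚ ℂ ℂ := D.restrictScalars ℚ with hD'
  have hmap : ∀ X : Matrix B B ℂ, X.map D = X.map D' := fun X => rfl
  have hNB0 : (NB j).map D' = 0 := by
    ext b b'
    refine D_alg D ?_
    obtain ⟨q, hq⟩ := mem_QQ.1 (H.rat j b b')
    rw [← hq]
    exact isAlgebraic_algebraMap (R := ℚ) (A := ℂ) q
  have hN0 : ∀ i, (N i).map D' = 0 := fun i => by
    ext b b'
    exact D_alg D (H.alg i b b')
  have h1 : NB j * C.map D' - ∑ i, (D (P j i) • (C * N i) + P j i • (C.map D' * N i)) ∈ Ge d 2 := by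
    have h2 := map_Ge_D D (H.lead j)
    refine (congrArg (· ∈ Ge d 2) ?_).mp h2
    rw [hmap]
    have h3 : (NB j * C - ∑ i, P j i • (C * N i)).map D' =
        (NB j * C).map D' - (∑ i, P j i • (C * N i)).map D' := by
      ext b b'
      simp only [Matrix.map_apply, Matrix.sub_apply, map_sub]
    rw [h3, map_mul_D, hNB0, Matrix.zero_mul, zero_add, map_sum_D]
    congr 1
    refine Finset.sum_congr rfl fun i _ => ?_
    have h4 : (P j i • (C * N i)).map D' = D' (P j i) • (C * N i) + P j i • (C * N i).map D' := by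
      ext b b'
      simp only [Matrix.map_apply, Matrix.smul_apply, Matrix.add_apply, smul_eq_mul, Derivation.leibniz]
      ring
    rw [h4, map_mul_D, hN0, Matrix.mul_zero, add_zero]
    rfl
  have h2 := Ge_mul h1 H.bi.m'
  rw [add_zero] at h2
  set Y := C.map D' * C⁻¹ with hY
  have hlow : Y ∈ Ge d 0 := by
    have h3 := Ge_mul (map_Ge_D D H.low) H.bi.m'
    rw [add_zero] at h3
    exact h3
  have h3 : ∑ i, D (P j i) • (C * N i * C⁻¹ - nbv NB (P' i)) ∈ Ge d 2 :=
    (Ge d 2).sum_mem fun i _ => (Ge d 2).smul_mem _ (H.conjN i)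
  have h4 : Y * (NB j - ∑ i, P j i • (C * N i * C⁻¹)) ∈ Ge d 2 := by
    have h5 := Ge_mul hlow (H.NB_eq j)
    rwa [zero_add] at h5
  have h5 : nbv NB ((P.map D * P') j) = ∑ i, D (P j i) • nbv NB (P' i) := by
    have h6 : (P.map D * P') j = ∑ i, D (P j i) • P' i := by
      funext k
      rw [Finset.sum_apply]
      rfl
    rw [h6]
    have h7 : ∀ s : Finset I, nbv NB (∑ i ∈ s, D (P j i) • P' i) = ∑ i ∈ s, D (P j i) • nbv NB (P' i) := by
      intro s
      induction s using Finset.induction_on with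
      | empty => rw [Finset.sum_empty, Finset.sum_empty, nbv_zero]
      | insert a s ha ih => rw [Finset.sum_insert ha, Finset.sum_insert ha, nbv_add, nbv_smul, ih]
    exact h7 _
  have h6 := (Ge d 2).add_mem ((Ge d 2).sub_mem h4 h2) ((Ge d 2).neg_mem h3)
  refine (congrArg (· ∈ Ge d 2) ?_).mp h6
  rw [hmap, ← hY, h5]
  have h7 : (NB j * C.map D' - ∑ i, (D (P j i) • (C * N i) + P j i • (C.map D' * N i))) * C⁻¹ =
      NB j * Y - ∑ i, D (P j i) • (C * N i * C⁻¹) - Y * ∑ i, P j i • (C * N i * C⁻¹) := by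
    rw [Matrix.sub_mul, Finset.sum_mul, hY, Matrix.mul_assoc (NB j), sub_sub, Matrix.mul_sum, ← Finset.sum_add_distrib]
    congr 1
    refine Finset.sum_congr rfl fun i _ => ?_
    rw [Matrix.add_mul, Matrix.smul_mul, Matrix.smul_mul, Matrix.mul_smul]
    congr 2
    have h8 : C.map D' * C⁻¹ * (C * N i * C⁻¹) = C.map D' * (C⁻¹ * C) * (N i * C⁻¹) := by
      simp only [Matrix.mul_assoc]
    rw [h8, H.bi.inv_mul, Matrix.mul_one, Matrix.mul_assoc]
  rw [h7]
  simp only [smul_sub, Finset.sum_sub_distrib, Matrix.mul_sub]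
  abel

variable {l : R → I → ℂ} {ell : R → Matrix B B ℂ} {C₀ : Matrix M M ℂ} {lk : Matrix M M ℂ → Matrix B B ℂ → Prop}

/-- the logarithmic derivatives -/
theorem der (hT : IsSubtorsor QB T) (hC₀ : IsUnit C₀) (hl : Lk d C₀ C lk) (hell : ∀ r, ell r ∈ nn N)
    (hell1 : ∀ r, ell r - nbv N (l r) ∈ Ge d 2)
    (hP : fromBlocks C₀ 0 0 (fromBlocks C 0 0 (blockDiagonal fun r => C * ex d (ell r))) ∈ T)
    (D : Derivation QBar ℂ ℂ) :
    ∃ Y V, Az T d o C N NB lk (C₀.map D * C₀⁻¹) (P.map D * P') (fun r => (fun i => D (l r i)) ᵥ* P') Y V := by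
  set D' : Derivation ℚ ℂ ℂ := D.restrictScalars ℚ with hD'
  have hmap : ∀ X : Matrix B B ℂ, X.map D = X.map D' := fun X => rfl
  have hb := H.bi
  have hDell : ∀ r, (ell r).map D' ∈ nn N := fun r => nn_der D' (fun s b b' => D_alg D (H.alg s b b')) (hell r)
  have hX := fun r => ex_der H.hN D' (hell r) (hDell r)
  set X : R → Matrix B B ℂ := fun r => (ex d (ell r)).map D' * ex d (-ell r) with hXd
  have hexx : ∀ r, ex d (ell r) * ex d (-ell r) = 1 := fun r => ex_mul_neg (nn_Ge H.hN (hell r))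
  have hC₀' : C₀ * C₀⁻¹ = 1 := Matrix.mul_nonsing_inv _ ((Matrix.isUnit_iff_isUnit_det _).1 hC₀)
  refine ⟨C.map D * C⁻¹, fun r => C * X r * C⁻¹, ⟨?_, hl.der D, Nor_der hb H.alg H.bet (fun x hx => ?_) D,
    fun r => conj_nB hb (hX r).1, ?_, fun b h => ?_, H.der_com D, fun r => ?_⟩⟩
  · have h1 := logder_mem hT (derD (dQ D) QB fun x hx => (QB_iff x).2 hx) hP
    have h2 : (fromBlocks C₀ 0 0 (fromBlocks C 0 0 (blockDiagonal fun r => C * ex d (ell r))))⁻¹ =
        fromBlocks C₀⁻¹ 0 0 (fromBlocks C⁻¹ 0 0 (blockDiagonal fun r => ex d (-ell r) * C⁻¹)) := by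
      refine Matrix.inv_eq_right_inv ?_
      rw [fromBlocks_multiply, fromBlocks_multiply]
      simp only [Matrix.mul_zero, Matrix.zero_mul, add_zero, zero_add]
      rw [hb.mul_inv, hC₀', ← blockDiagonal_mul]
      have h3 : (fun r => C * ex d (ell r) * (ex d (-ell r) * C⁻¹)) = (1 : R → Matrix B B ℂ) := by
        funext r
        rw [Matrix.mul_assoc, ← Matrix.mul_assoc (ex d (ell r)), hexx, Matrix.one_mul, hb.mul_inv]
        rfl
      rw [h3, blockDiagonal_one, fromBlocks_one, fromBlocks_one]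
    rw [h2] at h1
    refine (congrArg (fun X => fl X ∈ LL T) ?_).mp h1
    unfold qz qt
    have hD0 : (derD (dQ D) QB fun x hx => (QB_iff x).2 hx) 0 = 0 := map_zero _
    rw [fromBlocks_map, fromBlocks_map, fromBlocks_multiply, blockDiagonal_map _ _ hD0]
    have h0 : ∀ {α β : Type}, (0 : Matrix α β ℂ).map (derD (dQ D) QB fun x hx => (QB_iff x).2 hx) = 0 := by
      intro α β
      ext b b'
      exact hD0
    simp only [h0]
    simp only [Matrix.mul_zero, Matrix.zero_mul, add_zero, zero_add]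
    rw [fromBlocks_multiply]
    simp only [Matrix.mul_zero, Matrix.zero_mul, add_zero, zero_add]
    rw [← blockDiagonal_mul]
    congr 3
    funext r
    have h3 : (C * ex d (ell r)).map (derD (dQ D) QB fun x hx => (QB_iff x).2 hx) =
        C.map D' * ex d (ell r) + C * (ex d (ell r)).map D' := map_mul_D D' _ _
    rw [h3, hmap, hXd, Matrix.add_mul]
    congr 1
    · rw [Matrix.mul_assoc, ← Matrix.mul_assoc (ex d (ell r)), hexx, Matrix.one_mul]
    · simp only [Matrix.mul_assoc]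
  · obtain ⟨q, rfl⟩ := mem_QQ.1 hx
    exact (QB_iff _).1 (isAlgebraic_algebraMap (R := ℚ) (A := ℂ) q)
  · have h3 := Ge_mul (map_Ge_D D H.low) hb.m'
    rw [add_zero] at h3
    exact h3
  · rw [Matrix.mul_apply]
    refine Finset.sum_eq_zero fun c _ => ?_
    rw [Matrix.map_apply]
    by_cases hc : d c = 0
    · rw [H.uni c hc, H.coo, Derivation.map_one_eq_zero, zero_mul]
    · rw [hb.m' c b (by omega), mul_zero]
  · have h1 := hb.conj_mem ((hX r).2)
    have h2 : (ell r).map D' - nbv N (fun i => D (l r i)) ∈ Ge d 2 := by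
      have h3 := map_Ge_D D (hell1 r)
      refine (congrArg (· ∈ Ge d 2) ?_).mp h3
      ext b b'
      unfold nbv
      rw [Matrix.map_apply, Matrix.sub_apply, Matrix.sub_apply, Matrix.sum_apply, Matrix.sum_apply, map_sub, map_sum]
      congr 1
      refine Finset.sum_congr rfl fun s _ => ?_
      rw [Matrix.smul_apply, Matrix.smul_apply, smul_eq_mul, smul_eq_mul, Derivation.leibniz, D_alg D (H.alg s b b'),
        smul_zero, zero_add, smul_eq_mul, mul_comm]
    have h3 := hb.conj_mem h2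
    have h4 := H.conj_w (fun i => D (l r i))
    have h5 := (Ge d 2).add_mem ((Ge d 2).add_mem h1 h3) h4
    refine (congrArg (· ∈ Ge d 2) ?_).mp h5
    simp only [Matrix.mul_sub, Matrix.sub_mul, hXd]
    abel

end Fn

section triples

variable {g : ℕ} {A : AbVar g} {N NB : Fin (2 * g) → Matrix B B ℂ} {C₀ : Matrix M M ℂ}
  {lk : Matrix M M ℂ → Matrix B B ℂ → Prop} {u e : R → Fin g → ℂ} {ell : R → Matrix B B ℂ}

/-- the triples -/
def LT3 (T : Set (Matrix (M ⊕ (B ⊕ (B × R))) (M ⊕ (B ⊕ (B × R))) ℂ)) (d : B → ℕ) (o : B) (C : Matrix B B ℂ)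
    (N NB : Fin (2 * g) → Matrix B B ℂ) (lk : Matrix M M ℂ → Matrix B B ℂ → Prop) (C₀ : Matrix M M ℂ)
    (hl : Lk d C₀ C lk) : Submodule ℂ (T3 M g R) where
  carrier := {p | ∃ Y V, Az T d o C N NB lk p.1 p.2.1 p.2.2 Y V}
  zero_mem' := ⟨0, 0, Az.zero hl⟩
  add_mem' := by
    rintro p p' ⟨Y, V, h⟩ ⟨Y', V', h'⟩
    exact ⟨_, _, Az.add hl h h'⟩
  smul_mem' := by
    rintro a p ⟨Y, V, h⟩
    exact ⟨_, _, Az.smul hl a h⟩

theorem cl_LT3 (H : Fn d o N NB C (PA A) (PA A)⁻¹) (hT : IsSubtorsor QB T) (hG : GDef QQ T) (hC₀ : IsUnit C₀)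
    (hl : Lk d C₀ C lk) (hell : ∀ r, ell r ∈ nn N) (hell1 : ∀ r, ell r - nbv N (ll u e r) ∈ Ge d 2)
    (hP : fromBlocks C₀ 0 0 (fromBlocks C 0 0 (blockDiagonal fun r => C * ex d (ell r))) ∈ T) :
    Cl A C₀ u e (LT3 T d o C N NB lk C₀ hl) where
  br := by
    rintro z z' X X' y y' ⟨Y, V, h⟩ ⟨Y', V', h'⟩
    exact ⟨_, _, Az.br hl H.bi H.hN h h'⟩
  map := by
    rintro f z X y ⟨Y, V, h⟩
    exact ⟨_, _, Az.map hl (LL_defF hT hG hP) H.bet H.rat h f⟩
  log D := H.der hT hC₀ hl hell hell1 hP D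

end triples

end Pool.Agent.KS6_11.G
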