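import Pool.Agent.KS6_11.G.Raise
import Pool.Agent.KS6_11.Core2

set_option autoImplicit false
set_option linter.unusedVariables false
set_option linter.unusedSectionVars false
set_option linter.unusedSimpArgs false

/-!
# The main theorem
-/

open Matrix Module

noncomputable section

namespace Pool.Agent.KS6_11.G

open Pool.Agent.W516.DR Pool.Agent.W245.EB Pool.Agent.Y102
open Pool.Agent.TH127.PT Pool.Agent.TH119.DR Pool.Agent.Y123.ST
open Pool.Agent.X306.EM (QB_iff QQ mem_QQ)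
open Pool.Agent.X306.RL (LL_br derD LL_defF GDef)
open Pool.Agent.X306.MT
open Pool.Agent.X306.MZ (InK)
open Pool.Agent.X306.CV hiding Elt EE EE.add EE.smul EE.op EE.poly rho_lead raise top_elt mm mm_br mm_full all_mem main
open Pool.Agent.X306.AV (PA PA_inv inv_PA dQ Fld Pt Lt)
open Pool.Agent.KS6_11 (Ix fb_ee fb_sum)

variable {g : ℕ} {A : AbVar g} {M B R : Type} [Fintype M] [DecidableEq M] [Fintype B] [DecidableEq B]
  [Fintype R] [DecidableEq R]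
  {d : B → ℕ} {o : B} {N : Fin (2 * g) → Matrix B B ℂ} {C : Matrix B B ℂ} {NB : Fin (2 * g) → Matrix B B ℂ}
  {T : Set (Matrix (M ⊕ (B ⊕ (B × R))) (M ⊕ (B ⊕ (B × R))) ℂ)} {C₀ : Matrix M M ℂ}
  {lk : Matrix M M ℂ → Matrix B B ℂ → Prop} {u e : R → Fin g → ℂ} {ell : R → Matrix B B ℂ}

/-- the distinguished element -/
theorem exists_Dat (H : Fn d o N NB C (PA A) (PA A)⁻¹) (hl : Lk d C₀ C lk)
    (G : Cl A C₀ u e (LT3 T d o C N NB lk C₀ hl)) :
    ∃ z X y Y V h, Az T d o C N NB lk z X y Y V ∧ Dat d o NB (pr d 0 Y) X h := by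
  obtain ⟨z, X, y, ⟨Y, V, hA⟩, h, h0, hX⟩ := G.exists_e
  refine ⟨z, X, y, Y, V, h, hA, ⟨H.hNB, pr_Gr 0 Y, com_pr H.hNB hA.ar.low hA.ar.com, fun b => ?_, H.dgo,
    H.uni, H.gen, hX, h0⟩⟩
  rw [pr_apply]
  split_ifs with hb
  · exact hA.ar.ori b (by rw [hb, H.dgo])
  · rfl

/-- **The main theorem.** -/
theorem main (H : Fn d o N NB C (PA A) (PA A)⁻¹) (hT : IsSubtorsor QB T) (hG : GDef QQ T) (hC₀ : IsUnit C₀)
    (hl : Lk d C₀ C lk) (hell : ∀ r, ell r ∈ nn N) (hell1 : ∀ r, ell r - nbv N (ll u e r) ∈ Ge d 2)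
    (hP : fromBlocks C₀ 0 0 (fromBlocks C 0 0 (blockDiagonal fun r => C * ex d (ell r))) ∈ T)
    (hA : ∀ y : R → Fin (2 * g) → ℂ, ((0, 0, y) : T3 M g R) ∈ Lmin A C₀ u e)
    (hsm : ∀ (y : R → Fin (2 * g) → ℂ) (Y : Matrix B B ℂ) (V : R → Matrix B B ℂ),
      Az T d o C N NB lk 0 0 y Y V → Y ∈ Ge d 2)
    {n : R → Matrix B B ℂ} (hn : ∀ r, n r ∈ nn N) {x : Matrix (M ⊕ (B ⊕ (B × R))) (M ⊕ (B ⊕ (B × R))) ℂ} (hx : x ∈ T) :
    fromBlocks 1 0 0 (fromBlocks 1 0 0 (blockDiagonal fun r => C * ex d (n r) * C⁻¹)) * x ∈ T := by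
  have G := cl_LT3 H hT hG hC₀ hl hell hell1 hP
  obtain ⟨z, X, y, YZ, VZ, h, hZ, D⟩ := exists_Dat H hl G
  have hA' : ∀ y : R → Fin (2 * g) → ℂ, ∃ Y V, Az T d o C N NB lk 0 0 y Y V ∧ Y ∈ Ge d 2 := by
    intro y
    obtain ⟨Y, V, h1⟩ := Lmin_le G (hA y)
    exact ⟨Y, V, h1, hsm y Y V h1⟩
  have hE := all_mem H hZ D hA' hn
  unfold q0 qz qt at hE
  simp only [zero_add] at hE
  set V : R → Matrix B B ℂ := fun r => C * n r * C⁻¹ with hV
  have hV1 : ∀ r, V r ∈ Ge d 1 := fun r => nB_Ge H.bi H.hN (conj_nB H.bi (hn r))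
  obtain ⟨m, hm⟩ : ∃ m, top d = m + 1 := ⟨top d - 1, by
    have : 0 < top d := Nat.succ_pos _
    omega⟩
  have hsum : ∑ k ∈ Finset.range (m + 1), ee (fromBlocks 0 0 0 (fromBlocks 0 0 0 (blockDiagonal V)) :
      Matrix (M ⊕ (B ⊕ (B × R))) (M ⊕ (B ⊕ (B × R))) ℂ) k =
      fromBlocks 1 0 0 (fromBlocks 1 0 0 (blockDiagonal fun r => ex d (V r))) := by
    have h1 := fb_sum (M := M) (W := (fromBlocks 0 0 0 (blockDiagonal V) : Matrix (B ⊕ (B × R)) (B ⊕ (B × R)) ℂ)) m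
    rw [bd_sum, ← hm] at h1
    rw [← hm]
    exact h1
  have h4 := exp_mem hT hE (m := m) (by
    have h1 := fb_ee (M := M) (W := (fromBlocks 0 0 0 (blockDiagonal V) : Matrix (B ⊕ (B × R)) (B ⊕ (B × R)) ℂ)) m
    rw [bd_ee, ← hm] at h1
    have h2 : (fun r => ee (V r) (top d)) = 0 := by
      funext r
      exact ee_top (hV1 r) le_rfl
    rw [h2, blockDiagonal_zero, fromBlocks_zero, fromBlocks_zero] at h1
    rw [← hm]
    exact h1) hx (by
    rw [hsum]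
    refine IsUnit.mul ?_ (hT.isUnit x hx)
    refine IsUnit.of_mul_eq_one (fromBlocks 1 0 0 (fromBlocks 1 0 0 (blockDiagonal fun r => ex d (-V r)))) ?_
    rw [fromBlocks_multiply, fromBlocks_multiply]
    simp only [Matrix.mul_zero, Matrix.zero_mul, add_zero, zero_add, Matrix.one_mul]
    rw [← blockDiagonal_mul]
    have h3 : (fun r => ex d (V r) * ex d (-V r)) = (1 : R → Matrix B B ℂ) := by
      funext r
      exact ex_mul_neg (hV1 r)
    rw [h3, blockDiagonal_one, fromBlocks_one, fromBlocks_one])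
  rw [hsum] at h4
  refine (congrArg (· ∈ T) ?_).mp h4
  congr 4
  funext r
  exact ex_conj H.bi (n r)

end Pool.Agent.KS6_11.G
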