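import Pool.Agent.KS6_11.G.Main

set_option autoImplicit false
set_option linter.unusedVariables false
set_option linter.unusedSectionVars false
set_option linter.unusedSimpArgs false

/-!
# The two kinds of relations between the components
-/

open Matrix Module

noncomputable section

namespace Pool.Agent.KS6_11.G

open Pool.Agent.W516.DR Pool.Agent.W245.EB Pool.Agent.Y102
open Pool.Agent.TH127.PT Pool.Agent.TH119.DR Pool.Agent.Y123.ST
open Pool.Agent.X306.EM (QB_iff QQ mem_QQ)
open Pool.Agent.X306.RL (LL_br derD LL_defF GDef)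
open Pool.Agent.X306.MT
open Pool.Agent.X306.MZ (InK)
open Pool.Agent.X306.CV hiding Elt EE EE.add EE.smul EE.op EE.poly rho_lead raise top_elt mm mm_br mm_full all_mem main
open Pool.Agent.X306.AV (PA PA_inv inv_PA dQ Fld Pt Lt)

variable {M B R I : Type} [Fintype M] [DecidableEq M] [Fintype B] [DecidableEq B]
  [Fintype R] [DecidableEq R] [Fintype I] [DecidableEq I]
  {d : B → ℕ} {o : B} {N : I → Matrix B B ℂ} {C : Matrix B B ℂ} {NB : I → Matrix B B ℂ} {P P' : Matrix I I ℂ}
  {T : Set (Matrix (M ⊕ (B ⊕ (B × R))) (M ⊕ (B ⊕ (B × R))) ℂ)} {C₀ : Matrix M M ℂ}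

/-- the vanishing of the entries of degree one -/
def lkO (d : B → ℕ) (z : Matrix M M ℂ) (Y : Matrix B B ℂ) : Prop := ∀ b b', d b' = d b + 1 → Y b b' = 0

/-- the product with vanishing entries of degree one -/
theorem lkO_mul {z z' : Matrix M M ℂ} {Y Y' : Matrix B B ℂ} (hY : Y ∈ Ge d 0) (hY' : Y' ∈ Ge d 0)
    (h : lkO d z Y) (h' : lkO d z' Y') (w : Matrix M M ℂ) : lkO d w (Y * Y') := by
  intro b b' hb
  rw [Matrix.mul_apply]
  refine Finset.sum_eq_zero fun c _ => ?_
  by_cases h1 : d c < d b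
  · rw [hY b c (by omega), zero_mul]
  · by_cases h2 : d b' < d c
    · rw [hY' c b' (by omega), mul_zero]
    · by_cases h3 : d c = d b
      · rw [h' c b' (by omega), mul_zero]
      · rw [h b c (by omega), zero_mul]

theorem inv_one (hC : Bi d C) (h : ∀ b b', d b' = d b + 1 → C b b' = 0) (b b' : B) (hb : d b' = d b + 1) :
    C⁻¹ b b' = 0 := by
  set Q := C⁻¹ with hQ
  have h1 : C * pr d 1 Q ∈ Ge d 2 := by
    intro a a' ha
    rcases lt_or_ge (d a') (d a + 1) with h2 | h2
    · have h3 := Ge_mul hC.m (Gr_Ge (pr_Gr (d := d) 1 Q))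
      rw [zero_add] at h3
      exact h3 a a' h2
    · have h3 : (C * Q) a a' = 0 := by
        rw [hC.mul_inv, Matrix.one_apply_ne]
        rintro rfl
        omega
      rw [← h3, Matrix.mul_apply, Matrix.mul_apply]
      refine Finset.sum_congr rfl fun c _ => ?_
      rw [pr_apply]
      split_ifs with h4
      · rfl
      · rw [mul_zero]
        rcases lt_trichotomy (d c) (d a) with h5 | h5 | h5
        · rw [hC.m a c (by omega), zero_mul]
        · omega
        · by_cases h6 : d c = d a + 1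
          · rw [h a c h6, zero_mul]
          · have h7 : Q c a' = 0 := hC.m' c a' (by omega)
            rw [h7, mul_zero]
  have h2 : pr d 1 Q = 0 := by
    refine Gr_eq_zero (pr_Gr 1 Q) ?_
    have h3 := Ge_mul hC.m' h1
    rw [zero_add, ← Matrix.mul_assoc, hC.inv_mul, Matrix.one_mul] at h3
    exact h3
  have h3 := congrFun (congrFun h2 b) b'
  rw [pr_apply, if_pos hb] at h3
  exact h3

theorem map_one' {C : Matrix B B ℂ} (D : Derivation QBar ℂ ℂ) (h : ∀ b b', d b' = d b + 1 → C b b' = 0) :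
    ∀ b b', d b' = d b + 1 → C.map D b b' = 0 := fun b b' hb => by rw [Matrix.map_apply, h b b' hb, map_zero]

theorem map_low {C : Matrix B B ℂ} (D : Derivation QBar ℂ ℂ) (h : C ∈ Ge d 0) : C.map D ∈ Ge d 0 :=
  fun b b' hb => by rw [Matrix.map_apply, h b b' hb, map_zero]

/-- the first kind of relation -/
theorem Lk_O (hC : Bi d C) (h : ∀ b b', d b' = d b + 1 → C b b' = 0) : Lk d C₀ C (lkO (M := M) d) where
  zero := fun b b' hb => rfl
  add := fun h h' b b' hb => by rw [Matrix.add_apply, h b b' hb, h' b b' hb, add_zero]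
  smul := fun a z Y h b b' hb => by rw [Matrix.smul_apply, h b b' hb, smul_zero]
  map := fun f z Y h b b' hb => by rw [Matrix.map_apply, h b b' hb, map_zero]
  br := fun {z z' Y Y'} hY hY' h h' b b' hb => by
    rw [Matrix.sub_apply, lkO_mul hY hY' h h' z b b' hb, lkO_mul hY' hY h' h z b b' hb, sub_zero]
  der := fun D => lkO_mul (z := (0 : Matrix M M ℂ)) (z' := (0 : Matrix M M ℂ)) (map_low D hC.m) hC.m'
    (map_one' D h) (inv_one hC h) _

/-- the elements with trivial action on the generators have positive degree -/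
theorem Az.pos {lk : Matrix M M ℂ → Matrix B B ℂ → Prop} (H : Fn d o N NB C P P') {z : Matrix M M ℂ} {y : R → I → ℂ}
    {Y : Matrix B B ℂ} {V : R → Matrix B B ℂ} (h : Az T d o C N NB lk z 0 y Y V) : Y ∈ Ge d 1 := by
  have hcom : ∀ j, pr d 0 Y * NB j = NB j * pr d 0 Y := by
    intro j
    have h1 := com_pr H.hNB h.ar.low h.ar.com (Pi.single j 1)
    rw [nbv_single, Matrix.vecMul_zero, nbv_zero, add_zero] at h1
    exact sub_eq_zero.1 h1
  have h0 : pr d 0 Y = 0 := by
    refine Wd_all H.hNB H.dgo H.uni H.gen (pr_Gr 0 Y) (fun b hb => ?_) hcom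
    rw [pr_apply]
    split_ifs
    · exact h.ar.ori b hb
    · rfl
  have h1 := sub_pr0 h.ar.low
  rw [h0, sub_zero] at h1
  exact h1

theorem small_O (H : Fn d o N NB C P P') {z : Matrix M M ℂ} {y : R → I → ℂ} {Y : Matrix B B ℂ}
    {V : R → Matrix B B ℂ} (h : Az T d o C N NB (lkO d) z 0 y Y V) : Y ∈ Ge d 2 := by
  have h1 := h.pos H
  have h2 : pr d 1 Y = 0 := by
    ext b b'
    rw [pr_apply]
    split_ifs with h3
    · exact h.lnk b b' h3
    · rfl
  have h3 := sub_pr0 h1
  rw [h2, sub_zero] at h3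
  exact h3

/-- the entries of the component of the arbitrary object -/
def lkS (d : B → ℕ) (σ : {b : B // d b ≤ 2} → M) (z : Matrix M M ℂ) (Y : Matrix B B ℂ) : Prop :=
  (∀ b b', Y b.1 b'.1 = z (σ b) (σ b')) ∧ ∀ b i, (∀ b', i ≠ σ b') → z (σ b) i = 0 ∧ z i (σ b) = 0

variable {σ : {b : B // d b ≤ 2} → M}

theorem sum_part (hσ : Function.Injective σ) (f : M → ℂ) (hf : ∀ i, (∀ b', i ≠ σ b') → f i = 0) :
    ∑ i, f i = ∑ b, f (σ b) := by
  rw [← Finset.sum_image (s := Finset.univ) (g := σ) (f := f) fun a _ b _ hab => hσ hab]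
  symm
  refine Finset.sum_subset (Finset.subset_univ _) fun i _ hi => hf i fun b' hb' => hi ?_
  rw [Finset.mem_image]
  exact ⟨b', Finset.mem_univ _, hb'.symm⟩

theorem sum_low (f : B → ℂ) (hf : ∀ b, ¬ d b ≤ 2 → f b = 0) : ∑ b, f b = ∑ b : {b : B // d b ≤ 2}, f b.1 := by
  rw [← Finset.sum_subtype (Finset.univ.filter fun b => d b ≤ 2) (p := fun b => d b ≤ 2) (by simp) f]
  refine (Finset.sum_filter_of_ne fun b _ hb => ?_).symm
  by_contra h
  exact hb (hf b h)

theorem lkS_mul (hσ : Function.Injective σ) {z z' : Matrix M M ℂ} {Y Y' : Matrix B B ℂ} (hY' : Y' ∈ Ge d 0)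
    (h : lkS d σ z Y) (h' : lkS d σ z' Y') : lkS d σ (z * z') (Y * Y') := by
  refine ⟨fun b b' => ?_, fun b i hi => ⟨?_, ?_⟩⟩
  · rw [Matrix.mul_apply, Matrix.mul_apply, sum_low, sum_part hσ]
    · exact Finset.sum_congr rfl fun c _ => by rw [h.1, h'.1]
    · intro i hi
      rw [(h.2 b i hi).1, zero_mul]
    · intro c hc
      rw [hY' c b'.1 (by have := b'.2; omega), mul_zero]
  · rw [Matrix.mul_apply, sum_part hσ]
    · refine Finset.sum_eq_zero fun c _ => ?_
      rw [(h'.2 c i hi).1, mul_zero]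
    · intro j hj
      rw [(h.2 b j hj).1, zero_mul]
  · rw [Matrix.mul_apply, sum_part hσ]
    · refine Finset.sum_eq_zero fun c _ => ?_
      rw [(h.2 c i hi).2, zero_mul]
    · intro j hj
      rw [(h'.2 b j hj).2, mul_zero]

theorem lkS_inv (hσ : Function.Injective σ) (hC₀ : IsUnit C₀) (hC : Bi d C) (h : lkS d σ C₀ C) :
    lkS d σ C₀⁻¹ C⁻¹ := by
  have h1 : C₀ * C₀⁻¹ = 1 := Matrix.mul_nonsing_inv _ ((Matrix.isUnit_iff_isUnit_det _).1 hC₀)
  have h2 : C₀⁻¹ * C₀ = 1 := Matrix.nonsing_inv_mul _ ((Matrix.isUnit_iff_isUnit_det _).1 hC₀)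
  have hrow : ∀ b : {b : B // d b ≤ 2}, C₀⁻¹ (σ b) = fun i => ∑ c, if i = σ c then C⁻¹ b.1 c.1 else 0 := by
    intro b
    set r : M → ℂ := fun i => ∑ c, if i = σ c then C⁻¹ b.1 c.1 else 0 with hr
    have hr1 : ∀ c, r (σ c) = C⁻¹ b.1 c.1 := by
      intro c
      rw [hr]
      beta_reduce
      rw [Finset.sum_eq_single c]
      · rw [if_pos rfl]
      · intro c' _ hc'
        rw [if_neg]
        intro h3
        exact hc' (hσ h3.symm)
      · intro h3
        exact absurd (Finset.mem_univ _) h3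
    have hr2 : ∀ i, (∀ b', i ≠ σ b') → r i = 0 := by
      intro i hi
      rw [hr]
      exact Finset.sum_eq_zero fun c _ => if_neg (hi c)
    have hr3 : r ᵥ* C₀ = Pi.single (σ b) 1 := by
      funext j
      change ∑ i, r i * C₀ i j = _
      rw [sum_part hσ _ fun i hi => by rw [hr2 i hi, zero_mul]]
      by_cases hj : ∀ b', j ≠ σ b'
      · rw [Pi.single_eq_of_ne (hj b)]
        exact Finset.sum_eq_zero fun c _ => by rw [(h.2 c j hj).1, mul_zero]
      · push Not at hj
        obtain ⟨b', rfl⟩ := hj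
        have h3 : (C⁻¹ * C) b.1 b'.1 = ∑ c : {b : B // d b ≤ 2}, r (σ c) * C₀ (σ c) (σ b') := by
          rw [Matrix.mul_apply, sum_low]
          · exact Finset.sum_congr rfl fun c _ => by rw [h.1, hr1]
          · intro c hc
            rw [hC.m c b'.1 (by have := b'.2; omega), mul_zero]
        rw [← h3, hC.inv_mul, Matrix.one_apply]
        by_cases hbb : b = b'
        · rw [hbb, if_pos rfl, Pi.single_eq_same]
        · rw [if_neg fun h4 => hbb (Subtype.ext h4), Pi.single_eq_of_ne fun h4 => hbb (hσ h4.symm)]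
    have h3 : r = Pi.single (σ b) 1 ᵥ* C₀⁻¹ := by
      rw [← hr3, Matrix.vecMul_vecMul, h1, Matrix.vecMul_one]
    rw [h3, Matrix.single_one_vecMul]
    rfl
  have hcol : ∀ b : {b : B // d b ≤ 2}, ∀ i, C₀⁻¹ i (σ b) = ∑ c, if i = σ c then C⁻¹ c.1 b.1 else 0 := by
    intro b
    set r : M → ℂ := fun i => ∑ c, if i = σ c then C⁻¹ c.1 b.1 else 0 with hr
    have hr1 : ∀ c, r (σ c) = C⁻¹ c.1 b.1 := by
      intro c
      rw [hr]
      beta_reduce
      rw [Finset.sum_eq_single c]
      · rw [if_pos rfl]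
      · intro c' _ hc'
        rw [if_neg]
        intro h3
        exact hc' (hσ h3.symm)
      · intro h3
        exact absurd (Finset.mem_univ _) h3
    have hr2 : ∀ i, (∀ b', i ≠ σ b') → r i = 0 := by
      intro i hi
      rw [hr]
      exact Finset.sum_eq_zero fun c _ => if_neg (hi c)
    have hr3 : C₀ *ᵥ r = Pi.single (σ b) 1 := by
      funext j
      change ∑ i, C₀ j i * r i = _
      rw [sum_part hσ _ fun i hi => by rw [hr2 i hi, mul_zero]]
      by_cases hj : ∀ b', j ≠ σ b'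
      · rw [Pi.single_eq_of_ne (hj b)]
        exact Finset.sum_eq_zero fun c _ => by rw [(h.2 c j hj).2, zero_mul]
      · push Not at hj
        obtain ⟨b', rfl⟩ := hj
        have h3 : (C * C⁻¹) b'.1 b.1 = ∑ c : {b : B // d b ≤ 2}, C₀ (σ b') (σ c) * r (σ c) := by
          rw [Matrix.mul_apply, sum_low]
          · exact Finset.sum_congr rfl fun c _ => by rw [h.1, hr1]
          · intro c hc
            rw [hC.m' c b.1 (by have := b.2; omega), mul_zero]
        rw [← h3, hC.mul_inv, Matrix.one_apply]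
        by_cases hbb : b' = b
        · rw [hbb, if_pos rfl, Pi.single_eq_same]
        · rw [if_neg fun h4 => hbb (Subtype.ext h4), Pi.single_eq_of_ne fun h4 => hbb (hσ h4)]
    intro i
    have h3 : r = C₀⁻¹ *ᵥ Pi.single (σ b) 1 := by
      rw [← hr3, Matrix.mulVec_mulVec, h2, Matrix.one_mulVec]
    have h4 := congrFun h3 i
    rw [Matrix.mulVec_single_one] at h4
    exact h4.symm
  refine ⟨fun b b' => ?_, fun b i hi => ⟨?_, ?_⟩⟩
  · have h3 := congrFun (hrow b) (σ b')
    beta_reduce at h3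
    rw [h3, Finset.sum_eq_single b']
    · rw [if_pos rfl]
    · intro c' _ hc'
      rw [if_neg]
      intro h3
      exact hc' (hσ h3.symm)
    · intro h3
      exact absurd (Finset.mem_univ _) h3
  · have h3 := congrFun (hrow b) i
    beta_reduce at h3
    rw [h3]
    exact Finset.sum_eq_zero fun c _ => if_neg (hi c)
  · rw [hcol]
    exact Finset.sum_eq_zero fun c _ => if_neg (hi c)

/-- the second kind of relation -/
theorem Lk_S (hσ : Function.Injective σ) (hC₀ : IsUnit C₀) (hC : Bi d C) (h : lkS d σ C₀ C) :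
    Lk d C₀ C (lkS d σ) where
  zero := ⟨fun b b' => rfl, fun b i hi => ⟨rfl, rfl⟩⟩
  add := fun h h' => ⟨fun b b' => by rw [Matrix.add_apply, Matrix.add_apply, h.1, h'.1],
    fun b i hi => ⟨by rw [Matrix.add_apply, (h.2 b i hi).1, (h'.2 b i hi).1, add_zero],
      by rw [Matrix.add_apply, (h.2 b i hi).2, (h'.2 b i hi).2, add_zero]⟩⟩
  smul := fun a z Y h => ⟨fun b b' => by rw [Matrix.smul_apply, Matrix.smul_apply, h.1],
    fun b i hi => ⟨by rw [Matrix.smul_apply, (h.2 b i hi).1, smul_zero],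
      by rw [Matrix.smul_apply, (h.2 b i hi).2, smul_zero]⟩⟩
  map := fun f z Y h => ⟨fun b b' => by rw [Matrix.map_apply, Matrix.map_apply, h.1],
    fun b i hi => ⟨by rw [Matrix.map_apply, (h.2 b i hi).1, map_zero],
      by rw [Matrix.map_apply, (h.2 b i hi).2, map_zero]⟩⟩
  br := fun {z z' Y Y'} hY hY' h h' => by
    have h1 := lkS_mul hσ hY' h h'
    have h2 := lkS_mul hσ hY h' h
    exact ⟨fun b b' => by rw [Matrix.sub_apply, Matrix.sub_apply, h1.1, h2.1],
      fun b i hi => ⟨by rw [Matrix.sub_apply, (h1.2 b i hi).1, (h2.2 b i hi).1, sub_zero],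
        by rw [Matrix.sub_apply, (h1.2 b i hi).2, (h2.2 b i hi).2, sub_zero]⟩⟩
  der := fun D => lkS_mul hσ hC.m' (show lkS d σ (C₀.map D) (C.map D) from
    ⟨fun b b' => by rw [Matrix.map_apply, Matrix.map_apply, h.1],
      fun b i hi => ⟨by rw [Matrix.map_apply, (h.2 b i hi).1, map_zero],
        by rw [Matrix.map_apply, (h.2 b i hi).2, map_zero]⟩⟩) (lkS_inv hσ hC₀ hC h)

theorem Wd_all' (hNB : Deg1 d NB) (dgo : d o = 0) (uni : ∀ b, d b = 0 → b = o)
    (gen : ∀ b, b ≠ o → (Pi.single b 1 : B → ℂ) ∈ Submodule.span ℂ {v' | ∃ (v : B → ℂ) (i : I), v' = v ᵥ* NB i})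
    {Z : Matrix B B ℂ} (ori : ∀ b, Z o b = 0) (com : ∀ j, Z * NB j = NB j * Z) : Z = 0 := by
  have key : ∀ (k : ℕ), ∀ v ∈ Wd d k, v ᵥ* Z = 0 := by
    intro k
    induction k with
    | zero =>
      intro v hv
      funext b
      change ∑ a, v a * Z a b = 0
      refine Finset.sum_eq_zero fun a _ => ?_
      by_cases ha : d a = 0
      · rw [uni a ha, ori b, mul_zero]
      · rw [hv a ha, zero_mul]
    | succ k ih =>
      intro v hv
      have h1 := Wd_gen hNB dgo gen hv
      clear hv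
      induction h1 using Submodule.span_induction with
      | mem v hv =>
        obtain ⟨v₁, hv₁, i, rfl⟩ := hv
        rw [Matrix.vecMul_vecMul, ← com, ← Matrix.vecMul_vecMul, ih v₁ hv₁, Matrix.zero_vecMul]
      | zero => exact Matrix.zero_vecMul _
      | add v v' _ _ h3 h4 => rw [Matrix.add_vecMul, h3, h4, add_zero]
      | smul a v _ h3 => rw [Matrix.smul_vecMul, h3, smul_zero]
  ext b b'
  have h2 := key (d b) (Pi.single b 1) fun c hc => by
    rw [Pi.single_eq_of_ne]
    rintro rfl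
    exact hc rfl
  have h3 := congrFun h2 b'
  rw [Matrix.single_one_vecMul] at h3
  exact h3

theorem small_S (H : Fn d o N NB C P P')
    (hf : ∀ D ∈ nn N, D ∈ Gr d 2 → (∀ b, D o b = 0) → D = 0) {y : R → I → ℂ} {Y : Matrix B B ℂ}
    {V : R → Matrix B B ℂ} (h : Az T d o C N NB (lkS d σ) 0 0 y Y V) : Y ∈ Ge d 2 := by
  have h1 := h.pos H
  have hY0 : ∀ b b', d b ≤ 2 → d b' ≤ 2 → Y b b' = 0 := by
    intro b b' hb hb'
    exact h.lnk.1 ⟨b, hb⟩ ⟨b', hb'⟩
  have hsub : Y - pr d 1 Y ∈ Ge d 2 := sub_pr0 h1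
  have hY1 : ∀ b b', d b ≤ 2 → d b' ≤ 2 → pr d 1 Y b b' = 0 := by
    intro b b' hb hb'
    rw [pr_apply]
    split_ifs
    · exact hY0 b b' hb hb'
    · rfl
  have hcom : ∀ j, pr d 1 Y * NB j - NB j * pr d 1 Y = 0 := by
    intro j
    set W : Matrix B B ℂ := C * (∑ i, P j i • N i) * C⁻¹ with hW
    have ht : ∑ i, P j i • N i ∈ nn N := (nn N).sum_mem fun i _ => (nn N).smul_mem _ (qq_le 0 (Submodule.subset_span ⟨i, rfl⟩))
    have hWB : W ∈ nB C N := conj_nB H.bi ht
    have hWN : W - NB j ∈ Ge d 2 := by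
      have h2 := (Ge d 2).neg_mem (H.NB_eq j)
      refine (congrArg (· ∈ Ge d 2) ?_).mp h2
      rw [neg_sub, hW, Finset.mul_sum, Finset.sum_mul]
      congr 1
      exact Finset.sum_congr rfl fun i _ => by rw [Matrix.mul_smul, Matrix.smul_mul]
    have hW1 : W ∈ Ge d 1 := nB_Ge H.bi H.hN hWB
    set Q : Matrix B B ℂ := pr d 1 Y * NB j - NB j * pr d 1 Y with hQ
    have hQ2 : Q ∈ Gr d 2 := by
      have e1 := Gr_mul (pr_Gr (d := d) 1 Y) (k := 1) (M' := NB j) (H.hNB j)
      have e2 := Gr_mul (j := 1) (M := NB j) (H.hNB j) (pr_Gr (d := d) 1 Y)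
      exact (Gr d 2).sub_mem e1 e2
    set K : Matrix B B ℂ := Y * W - W * Y with hK
    have hKB : K ∈ nB C N := h.ar.nor W hWB
    have hKQ : K - Q ∈ Ge d 3 := by
      have e1 := Ge_br hsub hW1
      have e2 := Ge_br (Gr_Ge (pr_Gr (d := d) 1 Y)) hWN
      have e3 := (Ge d 3).add_mem e1 e2
      refine (congrArg (· ∈ Ge d 3) ?_).mp e3
      rw [hK, hQ, Matrix.sub_mul, Matrix.mul_sub, Matrix.mul_sub, Matrix.sub_mul]
      abel
    set D' : Matrix B B ℂ := C⁻¹ * K * C with hD'
    have hDn : D' ∈ nn N := hKB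
    have hDQ : D' - C⁻¹ * Q * C ∈ Ge d 3 := by
      have e1 := H.bi.conj_mem' hKQ
      refine (congrArg (· ∈ Ge d 3) ?_).mp e1
      rw [Matrix.mul_sub, Matrix.sub_mul]
    have hQo : ∀ c, Q o c = 0 := by
      intro c
      by_cases hc : d c = 2
      · rw [hQ, Matrix.sub_apply, Matrix.mul_apply, Matrix.mul_apply, Finset.sum_eq_zero, Finset.sum_eq_zero, sub_zero]
        · intro e _
          by_cases he : d e = 1
          · rw [hY1 e c (by omega) (by omega), mul_zero]
          · rw [H.hNB j o e (by rw [H.dgo]; omega), zero_mul]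
        · intro e _
          by_cases he : d e ≤ 2
          · rw [hY1 o e (by rw [H.dgo]; omega) he, zero_mul]
          · rw [H.hNB j e c (by omega), mul_zero]
      · exact hQ2 o c (by rw [H.dgo]; omega)
    have hD2 : D' ∈ Ge d 2 := by
      have e1 : C⁻¹ * Q * C ∈ Ge d 2 := H.bi.conj_mem' (Gr_Ge hQ2)
      have e2 := (Ge d 2).add_mem (Ge_mono (by omega) hDQ) e1
      rwa [sub_add_cancel] at e2
    have hCo : ∀ a, a ≠ o → d a = 0 → False := fun a ha h0 => ha (H.uni a h0)
    have hp0 : pr d 2 D' = 0 := by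
      refine hf _ (qq_le 1 (nn_pr H.hN 1 hDn)) (pr_Gr 2 D') fun b => ?_
      rw [pr_apply]
      split_ifs with hb
      · have e1 := hDQ o b (by omega)
        rw [Matrix.sub_apply, sub_eq_zero] at e1
        rw [e1, Matrix.mul_apply]
        refine Finset.sum_eq_zero fun c _ => ?_
        by_cases hc : d c ≤ 2
        · have e2 : (C⁻¹ * Q) o c = 0 := by
            rw [Matrix.mul_apply]
            refine Finset.sum_eq_zero fun a _ => ?_
            by_cases ha : a = o
            · rw [ha, hQo, mul_zero]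
            · have ha' : d a ≠ 0 := fun h0 => hCo a ha h0
              rw [hQ2 a c (by omega), mul_zero]
          rw [e2, zero_mul]
        · rw [H.low c b (by rw [H.dgo] at hb; omega), mul_zero]
      · rfl
    have hD3 : D' ∈ Ge d 3 := by
      have e1 := sub_pr0 hD2
      rw [hp0, sub_zero] at e1
      exact e1
    have hK3 : K ∈ Ge d 3 := by
      have e1 := H.bi.conj_mem hD3
      refine (congrArg (· ∈ Ge d 3) ?_).mp e1
      rw [hD']
      have e2 : C * (C⁻¹ * K * C) * C⁻¹ = (C * C⁻¹) * K * (C * C⁻¹) := by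
        simp only [Matrix.mul_assoc]
      rw [e2, H.bi.mul_inv, Matrix.one_mul, Matrix.mul_one]
    refine Gr_eq_zero hQ2 ?_
    have e1 := (Ge d 3).sub_mem hK3 hKQ
    rwa [sub_sub_cancel] at e1
  have h2 : pr d 1 Y = 0 := by
    refine Wd_all' H.hNB H.dgo H.uni H.gen (fun b => ?_) fun j => sub_eq_zero.1 (hcom j)
    by_cases hb : d b ≤ 2
    · exact hY1 o b (by rw [H.dgo]; omega) hb
    · exact pr_Gr 1 Y o b (by rw [H.dgo]; omega)
  rw [h2, sub_zero] at hsub
  exact hsub

end Pool.Agent.KS6_11.G
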